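import Mathlib

set_option autoImplicit false
set_option linter.unusedSectionVars false
set_option linter.unusedVariables false

open Set Filter Topology

namespace Pool.Agent.Helper451.Arcw

def Null (X : Type*) [MetricSpace X] : Prop :=
  ∀ r : ℝ, 0 < r → ∀ A : ℕ → Set X, (∀ n, IsConnected (A n)) →
    Pairwise (fun i j => Disjoint (A i) (A j)) → ¬ ∀ n, r ≤ Metric.diam (A n)

def Rim (X : Type*) [MetricSpace X] : Prop :=
  ∀ x : X, ∀ U : Set X, IsOpen U → x ∈ U → ∃ V : Set X, IsOpen V ∧ x ∈ V ∧ V ⊆ U ∧ (frontier V).Finite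

/-- every connected subset is locally connected -/
def LC (X : Type*) [MetricSpace X] : Prop :=
  ∀ M : Set X, IsPreconnected M → ∀ O : Set X, IsOpen O → ∀ x ∈ M, x ∈ O →
    ∃ U : Set X, IsOpen U ∧ x ∈ U ∧ U ∩ M ⊆ connectedComponentIn (M ∩ O) x

variable {X : Type*} [MetricSpace X]

/-- joined by a compact connected subset -/
def J (M : Set X) (x y : X) : Prop :=
  ∃ C : Set X, C ⊆ M ∧ IsCompact C ∧ IsPreconnected C ∧ x ∈ C ∧ y ∈ C

/-- relatively open -/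
def RO (M N : Set X) : Prop := N ⊆ M ∧ ∀ z ∈ N, ∃ U : Set X, IsOpen U ∧ z ∈ U ∧ U ∩ M ⊆ N

/-- bad pair -/
def Bad (M : Set X) (a b : X) : Prop :=
  IsPreconnected M ∧ a ∈ M ∧ b ∈ M ∧ a ≠ b ∧ (∀ y, J M a y → y = a) ∧ (∀ y, J M b y → y = b)

/-- bad tripod -/
def Tri (G : Set X) (a b m : X) : Prop :=
  IsPreconnected G ∧ a ∉ G ∧ b ∉ G ∧ m ∉ G ∧ a ≠ b ∧ a ≠ m ∧ b ≠ m ∧
  a ∈ closure G ∧ b ∈ closure G ∧ m ∈ closure G ∧
  (∀ y, J (insert a G) a y → y = a) ∧ (∀ y, J (insert b G) b y → y = b) ∧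
  (∀ y, J (insert m G) m y → y = m)

/-- component of the complement of the class of `x` containing `e` -/
def side (M : Set X) (e x : X) : Set X := connectedComponentIn (M \ {y | J M x y}) e

/-- linear bad pair -/
def Lin (M : Set X) (a b : X) : Prop := Bad M a b ∧ ∀ m ∈ M, m ≠ a → m ≠ b → b ∉ side M a m

/-- a node of the tree -/
structure Node (X : Type*) [MetricSpace X] where
  M : Set X
  A : Set X
  B : Set X
  a : X
  b : X
  bad : Bad M a b
  cA : IsClosed A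
  cB : IsClosed B
  aA : a ∈ A
  bB : b ∈ B
  dAB : Disjoint A B
  hA : ∀ w ∈ M, w ∈ A → w = a
  hB : ∀ w ∈ M, w ∈ B → w = b

/-- the whole tree; lists are read from the root at the right end: `i :: s` is the child of `s` -/
structure Tree (X : Type*) [MetricSpace X] where
  M : List (Fin 3) → Set X
  A : List (Fin 3) → Set X
  B : List (Fin 3) → Set X
  C : List (Fin 3) → Set X
  a : List (Fin 3) → X
  b : List (Fin 3) → X
  pM : ∀ s, IsPreconnected (M s)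
  aM : ∀ s, a s ∈ M s
  bM : ∀ s, b s ∈ M s
  aA : ∀ s, a s ∈ A s
  bB : ∀ s, b s ∈ B s
  cC : ∀ s, IsCompact (C s)
  pC : ∀ s, IsPreconnected (C s)
  CM : ∀ s, C s ⊆ closure (M s)
  CA : ∀ s, Disjoint (C s) (A s)
  CB : ∀ s, Disjoint (C s) (B s)
  AB : ∀ s, Disjoint (A s) (B s)
  A0 : ∀ s, A (0 :: s) = A s
  B0 : ∀ s, B (0 :: s) = C s
  A1 : ∀ s, A (1 :: s) = C s
  B1 : ∀ s, B (1 :: s) = B s
  A2 : ∀ s, A (2 :: s) = C s
  a0 : ∀ s, a (0 :: s) = a s
  b1 : ∀ s, b (1 :: s) = b s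
  sub : ∀ i s, M (i :: s) ⊆ M s
  small : ∀ i s, Metric.diam (M (i :: s)) ≤ (1 / 2 : ℝ) ^ s.length
  disj : ∀ i j s, i ≠ j → Disjoint (closure (M (i :: s))) (closure (M (j :: s)))
  d0 : ∀ s, Disjoint (closure (M (0 :: s))) (B s)
  d1 : ∀ s, Disjoint (closure (M (1 :: s))) (A s)
  d2A : ∀ s, Disjoint (closure (M (2 :: s))) (A s)
  d2B : ∀ s, Disjoint (closure (M (2 :: s))) (B s)

theorem J.refl {M : Set X} {x : X} (hx : x ∈ M) : J M x x :=
  ⟨{x}, by simpa using hx, isCompact_singleton, isPreconnected_singleton, rfl, rfl⟩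

theorem J.symm {M : Set X} {x y : X} (h : J M x y) : J M y x := by
  obtain ⟨C, h1, h2, h3, h4, h5⟩ := h
  exact ⟨C, h1, h2, h3, h5, h4⟩

theorem J.trans {M : Set X} {x y z : X} (h : J M x y) (h' : J M y z) : J M x z := by
  obtain ⟨C, h1, h2, h3, h4, h5⟩ := h
  obtain ⟨D, k1, k2, k3, k4, k5⟩ := h'
  exact ⟨C ∪ D, union_subset h1 k1, h2.union k2, h3.union y h5 k4 k3, Or.inl h4, Or.inr k5⟩

theorem J.mono {M N : Set X} (hMN : M ⊆ N) {x y : X} (h : J M x y) : J N x y := by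
  obtain ⟨C, h1, h2, h3, h4, h5⟩ := h
  exact ⟨C, h1.trans hMN, h2, h3, h4, h5⟩

theorem J.mem_right {M : Set X} {x y : X} (h : J M x y) : y ∈ M := by
  obtain ⟨C, h1, h2, h3, h4, h5⟩ := h
  exact h1 h5

theorem J.mem_left {M : Set X} {x y : X} (h : J M x y) : x ∈ M := h.symm.mem_right

theorem J.preconn (M : Set X) (x : X) : IsPreconnected {w | J M x w} := by
  apply isPreconnected_of_forall x
  rintro w ⟨C, h1, h2, h3, h4, h5⟩
  exact ⟨C, fun z hz => ⟨C, h1, h2, h3, h4, hz⟩, h4, h5, h3⟩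

theorem J.cls_eq {M : Set X} {x y : X} (h : J M x y) : {w | J M x w} = {w | J M y w} := by
  ext w
  exact ⟨fun hw => h.symm.trans hw, fun hw => h.trans hw⟩

lemma comp_closed_in {W : Set X} {x z : X} (hz : z ∈ closure (connectedComponentIn W x)) (hzW : z ∈ W) :
    z ∈ connectedComponentIn W x := by
  by_cases hx : x ∈ W
  · have h1 : IsPreconnected (connectedComponentIn W x ∪ {z}) := by
      apply isPreconnected_connectedComponentIn.subset_closure (t := connectedComponentIn W x ∪ {z})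
        subset_union_left
      rintro y (hy | hy)
      · exact subset_closure hy
      · rw [mem_singleton_iff] at hy; rw [hy]; exact hz
    have h2 := h1.subset_connectedComponentIn (x := x) (F := W)
      (Or.inl (mem_connectedComponentIn hx)) (by
        rintro y (hy | hy)
        · exact connectedComponentIn_subset _ _ hy
        · rw [mem_singleton_iff] at hy; rw [hy]; exact hzW)
    exact h2 (Or.inr rfl)
  · rw [connectedComponentIn_eq_empty hx] at hz; simp at hz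

lemma RO.open_eq {M N : Set X} (h : RO M N) : ∃ O : Set X, IsOpen O ∧ N = M ∩ O := by
  obtain ⟨h1, h2⟩ := h
  choose! U hU using h2
  refine ⟨⋃ z ∈ N, U z, isOpen_biUnion (fun z hz => (hU z hz).1), ?_⟩
  ext w
  constructor
  · intro hw
    exact ⟨h1 hw, mem_biUnion hw (hU w hw).2.1⟩
  · rintro ⟨hwM, hw⟩
    rw [mem_iUnion₂] at hw
    obtain ⟨z, hz, hwU⟩ := hw
    exact (hU z hz).2.2 ⟨hwU, hwM⟩

lemma RO.trans {A B C : Set X} (h1 : RO B C) (h2 : RO A B) : RO A C := by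
  refine ⟨h1.1.trans h2.1, fun z hz => ?_⟩
  obtain ⟨U, hU, hzU, hUB⟩ := h1.2 z hz
  obtain ⟨V, hV, hzV, hVA⟩ := h2.2 z (h1.1 hz)
  exact ⟨U ∩ V, hU.inter hV, ⟨hzU, hzV⟩, fun w hw => hUB ⟨hw.1.1, hVA ⟨hw.1.2, hw.2⟩⟩⟩

lemma RO.of_closed {M K : Set X} (h : ∀ z ∈ M, z ∈ closure K → z ∈ K) : RO M (M \ K) := by
  refine ⟨diff_subset, fun z hz => ⟨(closure K)ᶜ, isClosed_closure.isOpen_compl,
    fun hc => hz.2 (h z hz.1 hc), ?_⟩⟩
  rintro w ⟨hw1, hw2⟩
  exact ⟨hw2, fun h => hw1 (subset_closure h)⟩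

/-- a preconnected subset of `M` meeting a relatively open set either lies inside or meets the boundary -/
lemma RO.meets {M D V : Set X} (hD : RO M D) (hV : IsPreconnected V) (hVM : V ⊆ M)
    (hne : (V ∩ D).Nonempty) (hn : ¬ V ⊆ D) : ∃ w ∈ V, w ∈ closure D ∧ w ∉ D := by
  by_contra hno
  push Not at hno
  obtain ⟨O, hO, rfl⟩ := hD.open_eq
  obtain ⟨y, hyV, hyD⟩ := hne
  obtain ⟨z, hzV, hzD⟩ := not_subset.mp hn
  obtain ⟨w, hwV, hw1, hw2⟩ := hV O (closure (M ∩ O))ᶜ hO isClosed_closure.isOpen_compl (by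
    intro w hw
    by_cases h1 : w ∈ closure (M ∩ O)
    · exact Or.inl (hno w hw h1).2
    · exact Or.inr h1) ⟨y, hyV, hyD.2⟩ ⟨z, hzV, fun h => hzD (hno z hzV h)⟩
  exact hw2 (subset_closure ⟨hVM hwV, hw1⟩)

lemma RO.all {M D : Set X} (hD : RO M D) (hM : IsPreconnected M)
    (hcl : ∀ z ∈ M, z ∈ closure D → z ∈ D) (hne : D.Nonempty) : M ⊆ D := by
  by_contra hn
  obtain ⟨y, hy⟩ := hne
  obtain ⟨w, hwM, hw1, hw2⟩ := hD.meets hM subset_rfl ⟨y, hD.1 hy, hy⟩ hn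
  exact hw2 (hcl w hwM hw1)

theorem ro_comp (hL : LC X) {M N : Set X} (hM : IsPreconnected M) (hN : RO M N) (x : X) :
    RO M (connectedComponentIn N x) := by
  refine ⟨(connectedComponentIn_subset _ _).trans hN.1, fun z hz => ?_⟩
  have hzN := connectedComponentIn_subset _ _ hz
  obtain ⟨U, hU, hzU, hUN⟩ := hN.2 z hzN
  obtain ⟨V, hV, hzV, hVM⟩ := hL M hM U hU z (hN.1 hzN) hzU
  refine ⟨V, hV, hzV, ?_⟩
  refine hVM.trans ?_
  rw [connectedComponentIn_eq hz]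
  exact connectedComponentIn_mono _ (by rw [inter_comm]; exact hUN)

theorem touch (hL : LC X) {M N : Set X} (hM : IsPreconnected M) (hN : RO M N) (hne : ¬ M ⊆ N) {x : X}
    (hx : x ∈ N) : ∃ z ∈ M, z ∈ closure (connectedComponentIn N x) ∧ z ∉ N := by
  by_contra hno
  push Not at hno
  have h1 := (ro_comp hL hM hN x).all hM (fun z hz hzc => comp_closed_in hzc (hno z hz hzc))
    ⟨x, mem_connectedComponentIn hx⟩
  exact hne (h1.trans (connectedComponentIn_subset _ _))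

theorem trim (hL : LC X) {M Z : Set X} (hM : IsPreconnected M) (hZ : IsClosed Z) (hMZ : Disjoint M Z)
    {p q : X} (hp : p ∈ M) (hq : q ∈ M) :
    ∃ M' ⊆ M, IsPreconnected M' ∧ p ∈ M' ∧ q ∈ M' ∧ Disjoint (closure M') Z := by
  set S : Set X := {q | q ∈ M ∧ ∃ M' ⊆ M, IsPreconnected M' ∧ p ∈ M' ∧ q ∈ M' ∧ Disjoint (closure M') Z}
    with hS
  have loc : ∀ z ∈ M, ∃ (U V : Set X), IsOpen U ∧ z ∈ U ∧ U ∩ M ⊆ V ∧ z ∈ V ∧ V ⊆ M ∧ IsPreconnected V ∧
      Disjoint (closure V) Z := by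
    intro z hz
    have hzZ : z ∉ Z := fun h => Set.disjoint_left.mp hMZ hz h
    obtain ⟨ε, hε, hεZ⟩ := Metric.isOpen_iff.mp hZ.isOpen_compl z hzZ
    obtain ⟨U, hU, hzU, hUM⟩ := hL M hM (Metric.ball z (ε / 2)) Metric.isOpen_ball z hz
      (Metric.mem_ball_self (by linarith))
    refine ⟨U, connectedComponentIn (M ∩ Metric.ball z (ε / 2)) z, hU, hzU, hUM,
      mem_connectedComponentIn ⟨hz, Metric.mem_ball_self (by linarith)⟩,
      (connectedComponentIn_subset _ _).trans inter_subset_left, isPreconnected_connectedComponentIn, ?_⟩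
    rw [Set.disjoint_left]
    intro w hw hwZ
    have h1 : w ∈ Metric.closedBall z (ε / 2) := by
      have h2 : connectedComponentIn (M ∩ Metric.ball z (ε / 2)) z ⊆ Metric.closedBall z (ε / 2) :=
        (connectedComponentIn_subset _ _).trans (inter_subset_right.trans Metric.ball_subset_closedBall)
      exact closure_minimal h2 Metric.isClosed_closedBall hw
    exact hεZ (Metric.closedBall_subset_ball (by linarith) h1) hwZ
  have key : ∀ z ∈ M, ∃ U : Set X, IsOpen U ∧ z ∈ U ∧ ((U ∩ S).Nonempty → U ∩ M ⊆ S ∧ z ∈ S) := by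
    intro z hz
    obtain ⟨U, V, hU, hzU, hUV, hzV, hVM, hV, hVZ⟩ := loc z hz
    refine ⟨U, hU, hzU, ?_⟩
    rintro ⟨y, hyU, hyM, M', hM'M, hM', hpM', hyM', hM'Z⟩
    have h1 : ∀ w ∈ V, w ∈ S := by
      intro w hw
      refine ⟨hVM hw, M' ∪ V, union_subset hM'M hVM, hM'.union y hyM' (hUV ⟨hyU, hyM⟩) hV,
        Or.inl hpM', Or.inr hw, ?_⟩
      rw [closure_union]
      exact hM'Z.union_left hVZ
    exact ⟨fun w hw => h1 w (hUV hw), h1 z hzV⟩
  have hRO : RO M S := by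
    refine ⟨fun w hw => hw.1, fun z hz => ?_⟩
    obtain ⟨U, hU, hzU, h⟩ := key z hz.1
    exact ⟨U, hU, hzU, (h ⟨z, hzU, hz⟩).1⟩
  have hpS : p ∈ S := by
    obtain ⟨U, V, hU, hzU, hUV, hzV, hVM, hV, hVZ⟩ := loc p hp
    exact ⟨hp, V, hVM, hV, hzV, hzV, hVZ⟩
  have := hRO.all hM (fun z hz hzc => by
    obtain ⟨U, hU, hzU, h⟩ := key z hz
    have := mem_closure_iff.mp hzc U hU hzU
    exact (h this).2) ⟨p, hpS⟩ hq
  exact this.2

lemma bridge_aux (hL : LC X) {M P Q : Set X} (hM : IsPreconnected M) (hP : P ⊆ M) (hQ : Q ⊆ M)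
    (hPc : ∀ z ∈ M, z ∈ closure P → z ∈ P) (hQc : ∀ z ∈ M, z ∈ closure Q → z ∈ Q)
    (hPQ : Disjoint P Q) {z : X} (hz : z ∈ P) :
    ∃ U : Set X, IsOpen U ∧ z ∈ U ∧ ∀ y ∈ U, y ∈ M → y ∉ P → y ∈ M \ (P ∪ Q) ∧
      (P ∩ closure (connectedComponentIn (M \ (P ∪ Q)) y)).Nonempty := by
  have hzQ : z ∈ (closure Q)ᶜ := fun h => Set.disjoint_left.mp hPQ hz (hQc z (hP hz) h)
  obtain ⟨U, hU, hzU, hUM⟩ := hL M hM (closure Q)ᶜ isClosed_closure.isOpen_compl z (hP hz) hzQ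
  have hW : RO M (M \ (P ∪ Q)) := RO.of_closed (by
    intro w hw hwc
    rw [closure_union] at hwc
    rcases hwc with h | h
    · exact Or.inl (hPc w hw h)
    · exact Or.inr (hQc w hw h))
  refine ⟨U, hU, hzU, fun y hyU hyM hyP => ?_⟩
  have hyV := hUM ⟨hyU, hyM⟩
  have hVsub : connectedComponentIn (M ∩ (closure Q)ᶜ) z ⊆ M ∩ (closure Q)ᶜ := connectedComponentIn_subset _ _
  have hyQ : y ∉ Q := fun h => (hVsub hyV).2 (subset_closure h)
  have hyW : y ∈ M \ (P ∪ Q) := ⟨hyM, fun h => h.elim hyP hyQ⟩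
  refine ⟨hyW, ?_⟩
  have hzV : z ∈ connectedComponentIn (M ∩ (closure Q)ᶜ) z := mem_connectedComponentIn ⟨hP hz, hzQ⟩
  obtain ⟨w, hwV, hw1, hw2⟩ := (ro_comp hL hM hW y).meets
    (isPreconnected_connectedComponentIn (F := M ∩ (closure Q)ᶜ) (x := z)) (hVsub.trans inter_subset_left)
    ⟨y, hyV, mem_connectedComponentIn hyW⟩ (fun h => (connectedComponentIn_subset _ _ (h hzV)).2 (Or.inl hz))
  refine ⟨w, ?_, hw1⟩
  by_contra hwP
  have hwQ : w ∉ Q := fun h => (hVsub hwV).2 (subset_closure h)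
  exact hw2 (comp_closed_in hw1 ⟨(hVsub hwV).1, fun h => h.elim hwP hwQ⟩)

theorem bridge (hL : LC X) {M P Q : Set X} (hM : IsPreconnected M) (hP : P ⊆ M) (hQ : Q ⊆ M)
    (hPc : ∀ z ∈ M, z ∈ closure P → z ∈ P) (hQc : ∀ z ∈ M, z ∈ closure Q → z ∈ Q)
    (hPQ : Disjoint P Q) (hPn : P.Nonempty) (hQn : Q.Nonempty) :
    ∃ v ∈ M \ (P ∪ Q), (P ∩ closure (connectedComponentIn (M \ (P ∪ Q)) v)).Nonempty ∧
      (Q ∩ closure (connectedComponentIn (M \ (P ∪ Q)) v)).Nonempty := by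
  by_contra hno
  push Not at hno
  have hW : RO M (M \ (P ∪ Q)) := RO.of_closed (by
    intro w hw hwc
    rw [closure_union] at hwc
    rcases hwc with h | h
    · exact Or.inl (hPc w hw h)
    · exact Or.inr (hQc w hw h))
  set A : Set X := P ∪ {v | v ∈ M \ (P ∪ Q) ∧ (P ∩ closure (connectedComponentIn (M \ (P ∪ Q)) v)).Nonempty}
    with hA
  have hcomp : ∀ z ∈ M \ (P ∪ Q), ∀ v ∈ connectedComponentIn (M \ (P ∪ Q)) z,
      v ∈ M \ (P ∪ Q) ∧ connectedComponentIn (M \ (P ∪ Q)) v = connectedComponentIn (M \ (P ∪ Q)) z := by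
    intro z hz v hv
    exact ⟨connectedComponentIn_subset _ _ hv, (connectedComponentIn_eq hv).symm⟩
  have hAM : A ⊆ M := by
    rintro w (hw | hw)
    · exact hP hw
    · exact hw.1.1
  have hRO : RO M A := by
    refine ⟨hAM, fun z hz => ?_⟩
    rcases hz with hz | hz
    · obtain ⟨U, hU, hzU, h⟩ := bridge_aux hL hM hP hQ hPc hQc hPQ hz
      refine ⟨U, hU, hzU, fun y hy => ?_⟩
      by_cases hyP : y ∈ P
      · exact Or.inl hyP
      · exact Or.inr (h y hy.1 hy.2 hyP)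
    · obtain ⟨U, hU, hzU, h⟩ := (ro_comp hL hM hW z).2 z (mem_connectedComponentIn hz.1)
      refine ⟨U, hU, hzU, fun y hy => Or.inr ?_⟩
      obtain ⟨h1, h2⟩ := hcomp z hz.1 y (h hy)
      exact ⟨h1, by rw [h2]; exact hz.2⟩
  have hcl : ∀ z ∈ M, z ∈ closure A → z ∈ A := by
    intro z hzM hzc
    by_cases hzP : z ∈ P
    · exact Or.inl hzP
    by_cases hzQ : z ∈ Q
    · exfalso
      obtain ⟨U, hU, hzU, h⟩ := bridge_aux hL hM hQ hP hQc hPc hPQ.symm hzQ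
      rw [union_comm Q P] at h
      obtain ⟨y, ⟨hyU, hyQ⟩, hyA⟩ := mem_closure_iff.mp hzc (U ∩ (closure P)ᶜ)
        (hU.inter isClosed_closure.isOpen_compl) ⟨hzU, fun h => hzP (hPc z hzM h)⟩
      rcases hyA with hyP | hyA
      · exact hyQ (subset_closure hyP)
      · obtain ⟨h1, h2⟩ := h y hyU hyA.1.1 (fun h => hyA.1.2 (Or.inr h))
        have h3 := hno y h1 hyA.2
        rw [h3] at h2
        simp at h2
    · have hzW : z ∈ M \ (P ∪ Q) := ⟨hzM, fun h => h.elim hzP hzQ⟩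
      obtain ⟨U, hU, hzU, h⟩ := (ro_comp hL hM hW z).2 z (mem_connectedComponentIn hzW)
      obtain ⟨y, hyU, hyA⟩ := mem_closure_iff.mp hzc U hU hzU
      have hyE := h ⟨hyU, hAM hyA⟩
      obtain ⟨h1, h2⟩ := hcomp z hzW y hyE
      rcases hyA with hyP | hyA
      · exact absurd (Or.inl hyP) h1.2
      · right
        refine ⟨hzW, ?_⟩
        rw [← h2]; exact hyA.2
  obtain ⟨p, hp⟩ := hPn
  obtain ⟨q, hq⟩ := hQn
  rcases hRO.all hM hcl ⟨p, Or.inl hp⟩ (hQ hq) with h | h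
  · exact Set.disjoint_left.mp hPQ h hq
  · exact h.1.2 (Or.inr hq)

end Pool.Agent.Helper451.Arcw
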