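import Pool.Agent.Helper451.Arcw.D0

set_option autoImplicit false
set_option linter.unusedSectionVars false
set_option linter.unusedVariables false

open Set Filter Topology

namespace Pool.Agent.Helper451.Arcw

variable {X : Type*} [MetricSpace X]

lemma bump {X : Type*} [TopologicalSpace X] [T2Space X] {C U : Set X} (hC : IsCompact C)
    (hconn : IsPreconnected C) (hU : IsOpen U) {x : X} (hxC : x ∈ C) (hxU : x ∈ U)
    (hCU : ¬ C ⊆ U) :
    ∃ D : Set X, IsCompact D ∧ IsPreconnected D ∧ D ⊆ C ∧ D ⊆ closure U ∧ x ∈ D ∧ ¬ D ⊆ U := by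
  set K : Set X := C ∩ closure U with hK
  have hKc : IsCompact K := hC.inter_right isClosed_closure
  have hxK : x ∈ K := ⟨hxC, subset_closure hxU⟩
  have : CompactSpace K := isCompact_iff_compactSpace.mp hKc
  let x' : K := ⟨x, hxK⟩
  refine ⟨Subtype.val '' connectedComponent x', ?_, ?_, ?_, ?_, ?_, ?_⟩
  · exact (isClosed_connectedComponent.isCompact).image continuous_subtype_val
  · exact isPreconnected_connectedComponent.image _ continuous_subtype_val.continuousOn
  · rintro _ ⟨y, -, rfl⟩; exact y.2.1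
  · rintro _ ⟨y, -, rfl⟩; exact y.2.2
  · exact ⟨x', mem_connectedComponent, rfl⟩
  · intro hsub
    have h1 : connectedComponent x' ⊆ (Subtype.val ⁻¹' U : Set K) := by
      intro y hy; exact hsub ⟨y, hy, rfl⟩
    rw [connectedComponent_eq_iInter_isClopen] at h1
    have hopen : IsOpen (Subtype.val ⁻¹' U : Set K) := hU.preimage continuous_subtype_val
    obtain ⟨Z, hZ, hZx, hZU⟩ : ∃ Z : Set K, IsClopen Z ∧ x' ∈ Z ∧ Z ⊆ Subtype.val ⁻¹' U := by
      have hcomp : IsCompact ((Subtype.val ⁻¹' U : Set K)ᶜ) := hopen.isClosed_compl.isCompact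
      by_contra hno
      push Not at hno
      let ι := { Z : Set K // IsClopen Z ∧ x' ∈ Z }
      have hne : Nonempty ι := ⟨⟨univ, isClopen_univ, mem_univ _⟩⟩
      have hdir : Directed (· ⊇ ·) (fun Z : ι => (Z : Set K)) := by
        intro Z1 Z2
        exact ⟨⟨Z1.1 ∩ Z2.1, Z1.2.1.inter Z2.2.1, Z1.2.2, Z2.2.2⟩, inter_subset_left, inter_subset_right⟩
      have hcl : ∀ Z : ι, IsClosed (Z : Set K) := fun Z => Z.2.1.isClosed
      have hne2 : (⋂ Z : ι, ((Z : Set K) ∩ (Subtype.val ⁻¹' U : Set K)ᶜ)).Nonempty := by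
        apply IsCompact.nonempty_iInter_of_directed_nonempty_isCompact_isClosed
        · intro Z1 Z2
          refine ⟨⟨Z1.1 ∩ Z2.1, Z1.2.1.inter Z2.2.1, Z1.2.2, Z2.2.2⟩, ?_, ?_⟩
          · rintro y ⟨hy1, hy2⟩; exact ⟨hy1.1, hy2⟩
          · rintro y ⟨hy1, hy2⟩; exact ⟨hy1.2, hy2⟩
        · intro Z
          obtain ⟨y, hy, hyU⟩ := Set.not_subset.mp (hno Z.1 Z.2.1 Z.2.2)
          exact ⟨y, hy, hyU⟩
        · intro Z; exact ((hcl Z).inter hopen.isClosed_compl).isCompact
        · intro Z; exact (hcl Z).inter hopen.isClosed_compl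
      obtain ⟨y, hy⟩ := hne2
      rw [mem_iInter] at hy
      have hyU : y ∈ (Subtype.val ⁻¹' U : Set K) := by
        apply h1
        rw [mem_iInter]
        intro Z
        exact (hy ⟨Z.1, Z.2.1, Z.2.2⟩).1
      exact (hy ⟨univ, isClopen_univ, mem_univ _⟩).2 hyU
    obtain ⟨O, hO, hOZ⟩ := isOpen_induced_iff.mp hZ.isOpen
    have hZc : IsClosed (Subtype.val '' Z : Set X) :=
      (hZ.isClosed.isCompact.image continuous_subtype_val).isClosed
    have hcov : C ⊆ (Subtype.val '' Z) ∪ (O ∩ U)ᶜ := by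
      intro y hy
      by_cases hyO : y ∈ O ∩ U
      · left
        refine ⟨⟨y, hy, subset_closure hyO.2⟩, ?_, rfl⟩
        rw [← hOZ]; exact hyO.1
      · right; exact hyO
    obtain ⟨w, hwC, hwU⟩ := Set.not_subset.mp hCU
    have := (isPreconnected_closed_iff.mp hconn) _ _ hZc (hO.inter hU).isClosed_compl hcov
      ⟨x, hxC, x', hZx, rfl⟩ ⟨w, hwC, fun h => hwU h.2⟩
    obtain ⟨y, hyC, ⟨y', hy'Z, rfl⟩, hyO⟩ := this
    apply hyO
    refine ⟨?_, hZU hy'Z⟩
    have : y' ∈ (Subtype.val ⁻¹' O : Set K) := by rw [hOZ]; exact hy'Z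
    exact this

lemma Null.finite (hN : Null X) {r : ℝ} (hr : 0 < r) {K : Set (Set X)}
    (hc : ∀ C ∈ K, IsConnected C) (hd : ∀ C ∈ K, ∀ D ∈ K, C ≠ D → Disjoint C D)
    (hdiam : ∀ C ∈ K, r ≤ Metric.diam C) : K.Finite := by
  by_contra hinf
  have hinf' : K.Infinite := hinf
  let f := hinf'.natEmbedding
  refine hN r hr (fun n => (f n : Set X)) (fun n => hc _ (f n).2) ?_ (fun n => hdiam _ (f n).2)
  intro i j hij
  apply hd _ (f i).2 _ (f j).2
  intro h
  exact hij (f.injective (Subtype.ext h))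


lemma J.self {M : Set X} {x : X} (h : x ∈ M) : J M x x :=
  ⟨{x}, singleton_subset_iff.2 h, isCompact_singleton, isPreconnected_singleton, rfl, rfl⟩

/-- within a class everything is joined -/
lemma J.class {M : Set X} {x y z : X} (hy : J M x y) (hz : J M x z) :
    J {w | J M x w} y z := by
  have key : ∀ y, J M x y → J {w | J M x w} x y := by
    rintro y ⟨C, h1, h2, h3, h4, h5⟩
    exact ⟨C, fun c hc => ⟨C, h1, h2, h3, h4, hc⟩, h2, h3, h4, h5⟩
  exact (key y hy).symm.trans (key z hz)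

def Good (p : X) (K : Set X) : Prop :=
  p ∈ closure K ∧ p ∉ K ∧ ∀ y ∈ K, ∀ z ∈ K, J K y z

lemma step1 [CompactSpace X] (hN : Null X) {K : Set X} {p : X} (hK : Good p K) {r : ℝ}
    (hr : 0 < r) : ∃ L, Good p L ∧ L ⊆ K ∧ L ⊆ Metric.ball p r := by
  obtain ⟨hcl, hpK, hJ⟩ := hK
  by_cases hKr : K ⊆ Metric.ball p r
  · exact ⟨K, ⟨hcl, hpK, hJ⟩, subset_rfl, hKr⟩
  obtain ⟨w, hwK, hwr⟩ := not_subset.mp hKr
  set N : Set X := K ∩ Metric.ball p r with hNdef
  set F : Set (Set X) := {C | ∃ y ∈ K ∩ Metric.ball p (r / 4), C = {z | J N y z}} with hF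
  have hsub : Metric.ball p (r / 4) ⊆ Metric.ball p r := Metric.ball_subset_ball (by linarith)
  have hfin : F.Finite := by
    apply hN.finite (r := r / 4) (by linarith)
    · rintro C ⟨y, hy, rfl⟩
      have hyy : J N y y := J.self ⟨hy.1, hsub hy.2⟩
      refine ⟨⟨y, hyy⟩, isPreconnected_of_forall y fun z hz => ?_⟩
      obtain ⟨C, h1, h2, h3, h4, h5⟩ := hz
      exact ⟨C, fun c hc => ⟨C, h1, h2, h3, h4, hc⟩, h4, h5, h3⟩
    · rintro C ⟨y, hy, rfl⟩ D ⟨y', hy', rfl⟩ hne
      rw [Set.disjoint_left]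
      intro z hz hz'
      apply hne
      have h1 : J N y z := hz
      have h2 : J N y' z := hz'
      ext v
      exact ⟨fun hv => h2.trans (h1.symm.trans hv), fun hv => h1.trans (h2.symm.trans hv)⟩
    · rintro C ⟨y, hy, rfl⟩
      obtain ⟨C, h1, h2, h3, h4, h5⟩ := hJ y hy.1 w hwK
      obtain ⟨D, hD0, hD1, hD2, hD3, hD4, hD5⟩ := bump h2 h3
        (Metric.isOpen_ball (x := p) (ε := r / 2)) h4
        (Metric.ball_subset_ball (by linarith : r / 4 ≤ r / 2) hy.2)
        (fun h => hwr (Metric.ball_subset_ball (by linarith) (h h5)))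
      obtain ⟨v, hvD, hvr⟩ := not_subset.mp hD5
      have hDN : D ⊆ N := by
        intro d hd
        refine ⟨h1 (hD2 hd), ?_⟩
        have := Metric.closure_ball_subset_closedBall (hD3 hd)
        rw [Metric.mem_closedBall] at this
        rw [Metric.mem_ball]; linarith
      have hDC : D ⊆ {z | J N y z} := fun d hd => ⟨D, hDN, hD0, hD1, hD4, hd⟩
      have e1 : dist v y ≤ Metric.diam {z | J N y z} :=
        Metric.dist_le_diam_of_mem Metric.isBounded_of_compactSpace (hDC hvD) (hDC hD4)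
      have e2 : r / 2 ≤ dist v p := by
        rw [Metric.mem_ball, not_lt] at hvr; exact hvr
      have e3 : dist y p < r / 4 := hy.2
      have e4 := dist_triangle v y p
      linarith
  have hpc : p ∈ closure (K ∩ Metric.ball p (r / 4)) := by
    rw [Metric.mem_closure_iff] at hcl ⊢
    intro ε hε
    obtain ⟨b, hb, hb2⟩ := hcl (min ε (r / 4)) (lt_min hε (by linarith))
    refine ⟨b, ⟨hb, ?_⟩, hb2.trans_le (min_le_left _ _)⟩
    rw [Metric.mem_ball, dist_comm]
    exact hb2.trans_le (min_le_right _ _)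
  have hcov : K ∩ Metric.ball p (r / 4) ⊆ ⋃ C ∈ F, C := by
    intro y hy
    exact mem_biUnion (⟨y, hy, rfl⟩ : {z | J N y z} ∈ F) (J.self ⟨hy.1, hsub hy.2⟩)
  have hp2 := closure_mono hcov hpc
  rw [hfin.closure_biUnion, mem_iUnion₂] at hp2
  obtain ⟨L, ⟨y, hy, rfl⟩, hpL⟩ := hp2
  refine ⟨{z | J N y z}, ⟨hpL, ?_, ?_⟩, ?_, ?_⟩
  · intro h; exact hpK (J.mem_right h).1
  · intro a ha b hb; exact J.class ha hb
  · intro a ha; exact (J.mem_right ha).1
  · intro a ha; exact (J.mem_right ha).2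

lemma access [CompactSpace X] (hN : Null X) {K : Set X} {p x₀ : X} (hK : Good p K)
    (hx₀ : x₀ ∈ K) : J (insert p K) x₀ p := by
  have hstep : ∀ (n : ℕ) (K : {L : Set X // Good p L}), ∃ L : {L : Set X // Good p L},
      L.1 ⊆ K.1 ∧ L.1 ⊆ Metric.ball p (1 / ((n : ℝ) + 1)) := by
    intro n K
    obtain ⟨L, h1, h2, h3⟩ := step1 hN K.2 (r := 1 / ((n : ℝ) + 1)) (by positivity)
    exact ⟨⟨L, h1⟩, h2, h3⟩
  choose g hg1 hg2 using hstep
  let F : ℕ → {L : Set X // Good p L} := fun n => Nat.rec ⟨K, hK⟩ (fun n L => g n L) n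
  have hF0 : (F 0).1 = K := rfl
  have hFs : ∀ n, (F (n + 1)).1 ⊆ (F n).1 := fun n => hg1 n (F n)
  have hFb : ∀ n, (F (n + 1)).1 ⊆ Metric.ball p (1 / ((n : ℝ) + 1)) := fun n => hg2 n (F n)
  have hFK : ∀ n, (F n).1 ⊆ K := by
    intro n
    induction n with
    | zero => exact subset_rfl
    | succ n ih => exact (hFs n).trans ih
  have hne : ∀ n, ∃ y ∈ (F n).1, (n = 0 → y = x₀) := by
    intro n
    rcases Nat.eq_zero_or_pos n with rfl | hn
    · exact ⟨x₀, hx₀, fun _ => rfl⟩
    · obtain ⟨y, hy⟩ := closure_nonempty_iff.1 ⟨p, (F n).2.1⟩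
      exact ⟨y, hy, fun h => absurd h hn.ne'⟩
  choose x hx hx0 using hne
  have hJ : ∀ n, J (F n).1 (x n) (x (n + 1)) := fun n =>
    (F n).2.2.2 _ (hx n) _ (hFs n (hx (n + 1)))
  choose C hC1 hC2 hC3 hC4 hC5 using hJ
  set S : Set X := insert p (⋃ n, C n) with hS
  have hU : IsPreconnected (⋃ n, C n) := by
    apply IsPreconnected.iUnion_of_chain hC3
    intro n
    exact ⟨x (n + 1), hC5 n, hC4 (n + 1)⟩
  have hpU : p ∈ closure (⋃ n, C n) := by
    rw [Metric.mem_closure_iff]
    intro ε hε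
    obtain ⟨n, hn⟩ := exists_nat_one_div_lt hε
    refine ⟨x (n + 1), mem_iUnion.2 ⟨n + 1, hC4 _⟩, ?_⟩
    have := hFb n (hx (n + 1))
    rw [Metric.mem_ball, dist_comm] at this
    exact this.trans hn
  have hSpre : IsPreconnected S := hU.subset_closure (subset_insert _ _)
    (insert_subset hpU subset_closure)
  have hScl : IsClosed S := by
    apply isClosed_of_closure_subset
    intro z hz
    by_cases hzp : z = p
    · rw [hzp]; exact mem_insert _ _
    have hd : 0 < dist z p := dist_pos.2 hzp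
    obtain ⟨n, hn⟩ := exists_nat_one_div_lt (show 0 < dist z p / 2 by positivity)
    have hcov : S ⊆ (⋃ i ∈ Finset.range (n + 1), C i) ∪ Metric.closedBall p (dist z p / 2) := by
      rintro v (rfl | hv)
      · right; exact Metric.mem_closedBall_self (by positivity)
      · obtain ⟨i, hi⟩ := mem_iUnion.1 hv
        by_cases hin : i < n + 1
        · left; exact mem_biUnion (Finset.mem_coe.2 (Finset.mem_range.2 hin)) hi
        · right
          obtain ⟨j, rfl⟩ : ∃ j, i = j + 1 := ⟨i - 1, by omega⟩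
          have h1 := hFb j (hC1 _ hi)
          rw [Metric.mem_ball] at h1
          have h2 : 1 / ((j : ℝ) + 1) ≤ 1 / ((n : ℝ) + 1) := by
            apply one_div_le_one_div_of_le (by positivity)
            have : (n : ℝ) ≤ j := by exact_mod_cast (by omega : n ≤ j)
            linarith
          rw [Metric.mem_closedBall]; linarith
    have hclosed : IsClosed ((⋃ i ∈ Finset.range (n + 1), C i) ∪
        Metric.closedBall p (dist z p / 2)) := by
      apply IsClosed.union _ Metric.isClosed_closedBall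
      exact Set.Finite.isClosed_biUnion (Finset.finite_toSet _) fun i _ => (hC2 i).isClosed
    have h3 := closure_minimal hcov hclosed hz
    rcases h3 with h3 | h3
    · obtain ⟨i, _, hi⟩ := mem_iUnion₂.1 h3
      exact Or.inr (mem_iUnion.2 ⟨i, hi⟩)
    · rw [Metric.mem_closedBall] at h3; linarith
  refine ⟨S, ?_, hScl.isCompact, hSpre, ?_, mem_insert _ _⟩
  · apply insert_subset_insert
    exact iUnion_subset fun n => (hC1 n).trans (hFK n)
  · right
    rw [mem_iUnion]
    refine ⟨0, ?_⟩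
    rw [← hx0 0 rfl]; exact hC4 0

/- TARGET -/
theorem J_closed [CompactSpace X] (hN : Null X) {M : Set X} {x p : X} (hp : p ∈ M)
    (hcl : p ∈ closure {y | J M x y}) : J M x p := by
  by_cases hpK : J M x p
  · exact hpK
  obtain ⟨y, hy⟩ := closure_nonempty_iff.1 ⟨p, hcl⟩
  have hxM : x ∈ M := J.mem_left hy
  have hgood : Good p {y | J M x y} := ⟨hcl, hpK, fun y hy z hz => J.class hy hz⟩
  have h1 := access hN hgood (x₀ := x) (J.self hxM)
  refine h1.mono (insert_subset hp fun z hz => J.mem_right hz)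

end Pool.Agent.Helper451.Arcw
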