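import Pool.Agent.Helper451.Arcw.D1

set_option autoImplicit false
set_option linter.unusedSectionVars false
set_option linter.unusedVariables false

open Set Filter Topology

namespace Pool.Agent.Helper451.Arcw

variable {X : Type*} [MetricSpace X]

theorem J_reflE {M : Set X} {x : X} (hx : x ∈ M) : J M x x :=
  ⟨{x}, by simpa using hx, isCompact_singleton, isPreconnected_singleton, rfl, rfl⟩

theorem J_symmE {M : Set X} {x y : X} (h : J M x y) : J M y x := by
  obtain ⟨C, h1, h2, h3, h4, h5⟩ := h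
  exact ⟨C, h1, h2, h3, h5, h4⟩

theorem J_transE {M : Set X} {x y z : X} (h : J M x y) (h' : J M y z) : J M x z := by
  obtain ⟨C, h1, h2, h3, h4, h5⟩ := h
  obtain ⟨D, k1, k2, k3, k4, k5⟩ := h'
  exact ⟨C ∪ D, union_subset h1 k1, h2.union k2, h3.union y h5 k4 k3, Or.inl h4, Or.inr k5⟩

theorem J_monoE {M N : Set X} (hMN : M ⊆ N) {x y : X} (h : J M x y) : J N x y := by
  obtain ⟨C, h1, h2, h3, h4, h5⟩ := h
  exact ⟨C, h1.trans hMN, h2, h3, h4, h5⟩

theorem J_mem_right {M : Set X} {x y : X} (h : J M x y) : y ∈ M := by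
  obtain ⟨C, h1, h2, h3, h4, h5⟩ := h
  exact h1 h5

theorem J_class_conn {M : Set X} {x : X} (hx : x ∈ M) : IsConnected {w | J M x w} := by
  refine ⟨⟨x, J_reflE hx⟩, ?_⟩
  apply isPreconnected_of_forall x
  rintro w ⟨C, h1, h2, h3, h4, h5⟩
  exact ⟨C, fun z hz => ⟨C, h1, h2, h3, h4, hz⟩, h4, h5, h3⟩

theorem Null_finite' (hN : Null X) {r : ℝ} (hr : 0 < r) {K : Set (Set X)}
    (hc : ∀ C ∈ K, IsConnected C) (hd : ∀ C ∈ K, ∀ D ∈ K, C ≠ D → Disjoint C D)
    (hdiam : ∀ C ∈ K, r ≤ Metric.diam C) : K.Finite := by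
  by_contra hinf
  have hinf' : K.Infinite := hinf
  let f := hinf'.natEmbedding
  refine hN r hr (fun n => (f n : Set X)) (fun n => hc _ (f n).2) ?_ (fun n => hdiam _ (f n).2)
  intro i j hij
  apply hd _ (f i).2 _ (f j).2
  intro h
  exact hij (f.injective (Subtype.ext h))

theorem end_lemma [CompactSpace X] (hN : Null X) (hL : LC X) {N C : Set X} {e g : X}
    (hNp : IsPreconnected N) (heN : e ∈ N) (hgN : g ∈ N) (hgC : g ∈ C) (hC : IsClosed C) (heC : e ∉ C)
    (hin : ∀ y, J N e y → y = e) :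
    ∃ (M α : Set X) (x : X), M ⊆ N ∧ Bad M e x ∧ α ⊆ N ∧ e ∉ α ∧ IsCompact α ∧ IsPreconnected α ∧
      x ∈ α ∧ (α ∩ C).Nonempty ∧ (∀ w ∈ M, w ∈ C ∪ α → w = x) := by
  set K : Set X := {y | y ∈ N ∧ ∃ p ∈ C, J N p y} with hK
  have hgK : g ∈ K := ⟨hgN, g, hgC, J_reflE hgN⟩
  have heK : e ∉ K := by
    rintro ⟨-, p, hp, hJ⟩
    have := hin p (J_symmE hJ)
    exact heC (this ▸ hp)
  have hKcl : ∀ z ∈ N, z ∈ closure K → z ∈ K := by
    intro z hzN hz
    by_cases hzC : z ∈ C
    · exact ⟨hzN, z, hzC, J_reflE hzN⟩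
    have hCne : C.Nonempty := ⟨g, hgC⟩
    have hd : 0 < Metric.infDist z C := (hC.notMem_iff_infDist_pos hCne).1 hzC
    set d := Metric.infDist z C with hdd
    set S : Set (Set X) := {D | ∃ y ∈ K, dist y z < d / 2 ∧ D = {w | J N y w}} with hS
    have hSfin : S.Finite := by
      apply Null_finite' hN (r := d / 2) (by linarith)
      · rintro D ⟨y, hy, -, rfl⟩
        exact J_class_conn hy.1
      · rintro D ⟨y, hy, -, rfl⟩ D' ⟨y', hy', -, rfl⟩ hne
        rw [Set.disjoint_left]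
        intro w hw hw'
        apply hne
        ext v
        constructor
        · intro hv
          exact J_transE hw' (J_transE (J_symmE hw) hv)
        · intro hv
          exact J_transE hw (J_transE (J_symmE hw') hv)
      · rintro D ⟨y, hy, hyz, rfl⟩
        obtain ⟨hyN, p, hpC, hJ⟩ := hy
        have h1 : dist y p ≤ Metric.diam {w | J N y w} :=
          Metric.dist_le_diam_of_mem Metric.isBounded_of_compactSpace (J_reflE hyN) (J_symmE hJ)
        have h2 : d ≤ dist z p := Metric.infDist_le_dist_of_mem hpC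
        have h3 : dist z p ≤ dist z y + dist y p := dist_triangle z y p
        rw [dist_comm z y] at h3
        linarith
    have hz2 : z ∈ closure (⋃ D ∈ S, D) := by
      rw [mem_closure_iff] at hz ⊢
      intro O hO hzO
      obtain ⟨y, ⟨hyO, hyB⟩, hyK⟩ := hz (O ∩ Metric.ball z (d / 2)) (hO.inter Metric.isOpen_ball)
        ⟨hzO, Metric.mem_ball_self (by linarith)⟩
      refine ⟨y, hyO, ?_⟩
      simp only [mem_iUnion]
      exact ⟨{w | J N y w}, ⟨y, hyK, Metric.mem_ball.1 hyB, rfl⟩, J_reflE hyK.1⟩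
    rw [hSfin.closure_biUnion] at hz2
    simp only [mem_iUnion] at hz2
    obtain ⟨D, ⟨y, hyK, -, rfl⟩, hzD⟩ := hz2
    have hJ := J_closed hN hzN hzD
    obtain ⟨-, p, hpC, hJp⟩ := hyK
    exact ⟨hzN, p, hpC, J_transE hJp hJ⟩
  have hRO : RO N (N \ K) := by
    refine ⟨diff_subset, fun z hz => ⟨(closure K)ᶜ, isClosed_closure.isOpen_compl,
      fun h => hz.2 (hKcl z hz.1 h), ?_⟩⟩
    rintro w ⟨hw1, hw2⟩
    exact ⟨hw2, fun h => hw1 (subset_closure h)⟩
  have heNK : e ∈ N \ K := ⟨heN, heK⟩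
  obtain ⟨x, hxN, hxcl, hxn⟩ := touch hL hNp hRO (fun h => (h hgN).2 hgK) heNK
  have hxK : x ∈ K := by
    by_contra h
    exact hxn ⟨hxN, h⟩
  set E := connectedComponentIn (N \ K) e with hE
  have hEsub : E ⊆ N \ K := connectedComponentIn_subset _ _
  have heE : e ∈ E := mem_connectedComponentIn heNK
  have hMN : insert x E ⊆ N := by
    rintro w (rfl | hw)
    · exact hxN
    · exact (hEsub hw).1
  obtain ⟨-, p, hpC, α, hαN, hαc, hαp, hpα, hxα⟩ := hxK
  have hαK : ∀ w ∈ α, w ∈ K := fun w hw => ⟨hαN hw, p, hpC, α, hαN, hαc, hαp, hpα, hw⟩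
  have hxK : x ∈ K := hαK x hxα
  refine ⟨insert x E, α, x, hMN, ⟨?_, Or.inr heE, Or.inl rfl, ?_, ?_, ?_⟩, hαN,
    fun h => heK (hαK e h), hαc, hαp, hxα, ⟨p, hpα, hpC⟩, ?_⟩
  · apply isPreconnected_connectedComponentIn.subset_closure (subset_insert x E)
    rintro w (rfl | hw)
    · exact hxcl
    · exact subset_closure hw
  · rintro rfl
    exact heK hxK
  · intro y hy
    exact hin y (J_monoE hMN hy)
  · intro y hy
    rcases J_mem_right hy with h | h
    · exact h
    · exfalso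
      have h1 : J N x y := J_monoE hMN hy
      exact (hEsub h).2 ⟨(hEsub h).1, p, hpC, J_transE ⟨α, hαN, hαc, hαp, hpα, hxα⟩ h1⟩
  · intro w hwM hw
    rcases hwM with h | h
    · exact h
    · exfalso
      rcases hw with hw | hw
      · exact (hEsub h).2 ⟨(hEsub h).1, w, hw, J_reflE (hEsub h).1⟩
      · exact (hEsub h).2 (hαK w hw)

end Pool.Agent.Helper451.Arcw
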