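import Pool.Agent.Helper451.Arcw.D8
import Pool.Agent.Helper451.Arcw.D9

set_option autoImplicit false
set_option linter.unusedSectionVars false
set_option linter.unusedVariables false

open Set Filter Topology

namespace Pool.Agent.Helper451.Arcw

variable {X : Type*} [MetricSpace X]

theorem Bad.symm {M : Set X} {a b : X} (h : Bad M a b) : Bad M b a :=
  ⟨h.1, h.2.2.1, h.2.1, h.2.2.2.1.symm, h.2.2.2.2.2, h.2.2.2.2.1⟩

/-- a connected neighbourhood of an end point -/
theorem end_nbhd (hL : LC X) {G : Set X} {e : X} {r : ℝ} (hG : IsPreconnected G)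
    (he : e ∈ closure G) (hr : 0 < r) : ∃ (V : Set X) (g : X), V ⊆ insert e G ∧
      V ⊆ Metric.ball e r ∧ IsPreconnected V ∧ e ∈ V ∧ g ∈ G ∧ g ∈ V := by
  have h1 : IsPreconnected (insert e G) :=
    hG.subset_closure (subset_insert _ _) (insert_subset he subset_closure)
  obtain ⟨U, hU, heU, hUV⟩ := hL _ h1 (Metric.ball e r) Metric.isOpen_ball e (mem_insert _ _)
    (Metric.mem_ball_self hr)
  obtain ⟨g, hgU, hgG⟩ := mem_closure_iff.1 he U hU heU
  refine ⟨connectedComponentIn (insert e G ∩ Metric.ball e r) e, g, ?_, ?_, ?_, ?_, hgG, ?_⟩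
  · exact (connectedComponentIn_subset _ _).trans inter_subset_left
  · exact (connectedComponentIn_subset _ _).trans inter_subset_right
  · exact isPreconnected_connectedComponentIn
  · exact mem_connectedComponentIn ⟨mem_insert _ _, Metric.mem_ball_self hr⟩
  · exact hUV ⟨hgU, mem_insert_of_mem _ hgG⟩

theorem exists_rad {e : X} {Z : Set X} (hZ : IsClosed Z) (he : e ∉ Z) :
    ∃ δ > 0, ∀ r, r ≤ δ → Disjoint (Metric.closedBall e r) Z := by
  obtain ⟨δ, hδ, h⟩ := Metric.isOpen_iff.1 hZ.isOpen_compl e he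
  refine ⟨δ / 2, by linarith, fun r hr => ?_⟩
  rw [Set.disjoint_left]
  intro x hx hxZ
  refine h (Metric.mem_ball.2 ?_) hxZ
  have := Metric.mem_closedBall.1 hx
  linarith

theorem split [CompactSpace X] (hN : Null X) (hL : LC X) (n : Node X) {ε : ℝ} (hε : 0 < ε) :
    ∃ (C : Set X) (c : Fin 3 → Node X), IsCompact C ∧ IsPreconnected C ∧ C ⊆ closure n.M ∧
      Disjoint C n.A ∧ Disjoint C n.B ∧ (c 0).A = n.A ∧ (c 0).B = C ∧ (c 1).A = C ∧ (c 1).B = n.B ∧
      (c 2).A = C ∧ (c 0).a = n.a ∧ (c 1).b = n.b ∧ (∀ i, (c i).M ⊆ n.M) ∧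
      (∀ i, Metric.diam (c i).M ≤ ε) ∧
      (∀ i j, i ≠ j → Disjoint (closure (c i).M) (closure (c j).M)) ∧
      Disjoint (closure (c 0).M) n.B ∧ Disjoint (closure (c 1).M) n.A ∧
      Disjoint (closure (c 2).M) n.A ∧ Disjoint (closure (c 2).M) n.B := by
  obtain ⟨G, m, hGM, hmM, hG, haG, hbG, hmG, hab, ham, hbm, hac, hbc, hmc, hJa, hJb, hJm⟩ :=
    exists_tri hN hL n.bad
  have hGA : Disjoint G n.A := by
    rw [Set.disjoint_left]
    intro w hw hwA
    exact haG (n.hA w (hGM hw) hwA ▸ hw)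
  have hGB : Disjoint G n.B := by
    rw [Set.disjoint_left]
    intro w hw hwB
    exact hbG (n.hB w (hGM hw) hwB ▸ hw)
  have hGm : Disjoint G {m} := by
    rw [Set.disjoint_singleton_right]; exact hmG
  have hmA : m ∉ n.A := fun h => ham (n.hA m hmM h).symm
  have hmB : m ∉ n.B := fun h => hbm (n.hB m hmM h).symm
  have haB : n.a ∉ n.B := fun h => Set.disjoint_left.1 n.dAB n.aA h
  have hbA : n.b ∉ n.A := fun h => Set.disjoint_left.1 n.dAB h n.bB
  have haM : n.a ∈ n.M := n.bad.2.1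
  have hbM : n.b ∈ n.M := n.bad.2.2.1
  -- the radius
  obtain ⟨δa, hδa, hda⟩ := exists_rad n.cB haB
  obtain ⟨δb, hδb, hdb⟩ := exists_rad n.cA hbA
  obtain ⟨δm, hδm, hdm⟩ := exists_rad (n.cA.union n.cB) (e := m) (by
    rintro (h | h)
    · exact hmA h
    · exact hmB h)
  have d1 : 0 < dist n.a n.b := dist_pos.2 hab
  have d2 : 0 < dist n.a m := dist_pos.2 ham
  have d3 : 0 < dist n.b m := dist_pos.2 hbm
  obtain ⟨r, hr, hr1, hr2, hr3, hr4, hr5, hr6, hr7⟩ : ∃ r > 0, 2 * r ≤ ε ∧ r ≤ δa ∧ r ≤ δb ∧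
      r ≤ δm ∧ r + r < dist n.a n.b ∧ r + r < dist n.a m ∧ r + r < dist n.b m := by
    refine ⟨min (min (ε / 2) δa) (min (min δb δm) (min (dist n.a n.b / 3)
      (min (dist n.a m / 3) (dist n.b m / 3)))), ?_, ?_, ?_, ?_, ?_, ?_, ?_, ?_⟩
    · simp only [lt_min_iff]
      refine ⟨⟨by linarith, hδa⟩, ⟨hδb, hδm⟩, by linarith, by linarith, by linarith⟩
    · have : min (min (ε / 2) δa) (min (min δb δm) (min (dist n.a n.b / 3)
        (min (dist n.a m / 3) (dist n.b m / 3)))) ≤ ε / 2 :=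
        (min_le_left _ _).trans (min_le_left _ _)
      linarith
    · exact (min_le_left _ _).trans (min_le_right _ _)
    · exact (min_le_right _ _).trans ((min_le_left _ _).trans (min_le_left _ _))
    · exact (min_le_right _ _).trans ((min_le_left _ _).trans (min_le_right _ _))
    · have : min (min (ε / 2) δa) (min (min δb δm) (min (dist n.a n.b / 3)
        (min (dist n.a m / 3) (dist n.b m / 3)))) ≤ dist n.a n.b / 3 :=
        (min_le_right _ _).trans ((min_le_right _ _).trans (min_le_left _ _))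
      linarith
    · have : min (min (ε / 2) δa) (min (min δb δm) (min (dist n.a n.b / 3)
        (min (dist n.a m / 3) (dist n.b m / 3)))) ≤ dist n.a m / 3 :=
        (min_le_right _ _).trans ((min_le_right _ _).trans ((min_le_right _ _).trans
          (min_le_left _ _)))
      linarith
    · have : min (min (ε / 2) δa) (min (min δb δm) (min (dist n.a n.b / 3)
        (min (dist n.a m / 3) (dist n.b m / 3)))) ≤ dist n.b m / 3 :=
        (min_le_right _ _).trans ((min_le_right _ _).trans ((min_le_right _ _).trans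
          (min_le_right _ _)))
      linarith
  have Dab : Disjoint (Metric.closedBall n.a r) (Metric.closedBall n.b r) :=
    Metric.closedBall_disjoint_closedBall hr5
  have Dam : Disjoint (Metric.closedBall n.a r) (Metric.closedBall m r) :=
    Metric.closedBall_disjoint_closedBall hr6
  have Dbm : Disjoint (Metric.closedBall n.b r) (Metric.closedBall m r) :=
    Metric.closedBall_disjoint_closedBall hr7
  -- neighbourhoods
  obtain ⟨Va, ga, hVa1, hVa2, hVa3, hVa4, hga1, hga2⟩ := end_nbhd hL hG hac hr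
  obtain ⟨Vb, gb, hVb1, hVb2, hVb3, hVb4, hgb1, hgb2⟩ := end_nbhd hL hG hbc hr
  obtain ⟨Vm, gm, hVm1, hVm2, hVm3, hVm4, hgm1, hgm2⟩ := end_nbhd hL hG hmc hr
  -- trimming
  have hZ : IsClosed (n.A ∪ n.B ∪ {m}) := (n.cA.union n.cB).union isClosed_singleton
  have hGZ : Disjoint G (n.A ∪ n.B ∪ {m}) := by
    rw [Set.disjoint_union_right, Set.disjoint_union_right]
    exact ⟨⟨hGA, hGB⟩, hGm⟩
  obtain ⟨T1, hT1G, hT1, hT1a, hT1b, hT1Z⟩ := trim hL hG hZ hGZ hga1 hgb1
  obtain ⟨T2, hT2G, hT2, hT2a, hT2m, hT2Z⟩ := trim hL hG hZ hGZ hga1 hgm1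
  set C0 : Set X := closure (T1 ∪ T2) with hC0
  have hC0Z : Disjoint C0 (n.A ∪ n.B ∪ {m}) := by
    rw [hC0, closure_union, Set.disjoint_union_left]
    exact ⟨hT1Z, hT2Z⟩
  rw [Set.disjoint_union_right, Set.disjoint_union_right] at hC0Z
  obtain ⟨⟨hC0A, hC0B⟩, hC0m⟩ := hC0Z
  have hC0p : IsPreconnected C0 := (hT1.union ga hT1a hT2a hT2).closure
  have hC0c : IsClosed C0 := isClosed_closure
  have hC0G : C0 ⊆ closure n.M := closure_mono ((union_subset hT1G hT2G).trans hGM)
  have haC : n.a ∉ C0 := fun h => Set.disjoint_left.1 hC0A h n.aA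
  have hbC : n.b ∉ C0 := fun h => Set.disjoint_left.1 hC0B h n.bB
  have hmC : m ∉ C0 := fun h => Set.disjoint_left.1 hC0m h rfl
  obtain ⟨Ma, αa, xa, ea1, ea2, ea3, ea4, ea5, ea6, ea7, ea8, ea9⟩ :=
    end_lemma hN hL hVa3 hVa4 hga2 (subset_closure (Or.inl hT1a)) hC0c haC
      (fun y hy => hJa y (hy.mono hVa1))
  obtain ⟨Mb, αb, xb, eb1, eb2, eb3, eb4, eb5, eb6, eb7, eb8, eb9⟩ :=
    end_lemma hN hL hVb3 hVb4 hgb2 (subset_closure (Or.inl hT1b)) hC0c hbC
      (fun y hy => hJb y (hy.mono hVb1))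
  obtain ⟨Mm, αm, xm, em1, em2, em3, em4, em5, em6, em7, em8, em9⟩ :=
    end_lemma hN hL hVm3 hVm4 hgm2 (subset_closure (Or.inr hT2m)) hC0c hmC
      (fun y hy => hJm y (hy.mono hVm1))
  have hαG : ∀ {e : X} {V α : Set X}, V ⊆ insert e G → α ⊆ V → e ∉ α → α ⊆ G := by
    intro e V α h1 h2 h3 w hw
    rcases h1 (h2 hw) with h4 | h4
    · exact absurd (h4 ▸ hw) h3
    · exact h4
  have hαa := hαG hVa1 ea3 ea4
  have hαb := hαG hVb1 eb3 eb4
  have hαm := hαG hVm1 em3 em4
  set C : Set X := C0 ∪ αa ∪ αb ∪ αm with hC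
  have hCc : IsCompact C := ((hC0c.isCompact.union ea5).union eb5).union em5
  have hCp : IsPreconnected C := by
    have h1 : IsPreconnected (C0 ∪ αa) :=
      hC0p.union' (by rw [inter_comm]; exact ea8) ea6
    have h2 : IsPreconnected (C0 ∪ αa ∪ αb) := by
      refine h1.union' ?_ eb6
      obtain ⟨w, hw1, hw2⟩ := eb8
      exact ⟨w, Or.inl hw2, hw1⟩
    refine h2.union' ?_ em6
    obtain ⟨w, hw1, hw2⟩ := em8
    exact ⟨w, Or.inl (Or.inl hw2), hw1⟩
  have hCM : C ⊆ closure n.M := by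
    refine union_subset (union_subset (union_subset hC0G ?_) ?_) ?_
    · exact (hαa.trans hGM).trans subset_closure
    · exact (hαb.trans hGM).trans subset_closure
    · exact (hαm.trans hGM).trans subset_closure
  have hCA : Disjoint C n.A := by
    rw [hC]
    simp only [Set.disjoint_union_left]
    exact ⟨⟨⟨hC0A, hGA.mono_left hαa⟩, hGA.mono_left hαb⟩, hGA.mono_left hαm⟩
  have hCB : Disjoint C n.B := by
    rw [hC]
    simp only [Set.disjoint_union_left]
    exact ⟨⟨⟨hC0B, hGB.mono_left hαa⟩, hGB.mono_left hαb⟩, hGB.mono_left hαm⟩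
  have hCm : Disjoint C {m} := by
    rw [hC]
    simp only [Set.disjoint_union_left]
    exact ⟨⟨⟨hC0m, hGm.mono_left hαa⟩, hGm.mono_left hαb⟩, hGm.mono_left hαm⟩
  have bMa : Ma ⊆ Metric.closedBall n.a r := (ea1.trans hVa2).trans Metric.ball_subset_closedBall
  have bMb : Mb ⊆ Metric.closedBall n.b r := (eb1.trans hVb2).trans Metric.ball_subset_closedBall
  have bMm : Mm ⊆ Metric.closedBall m r := (em1.trans hVm2).trans Metric.ball_subset_closedBall
  have bαa : αa ⊆ Metric.closedBall n.a r := (ea3.trans hVa2).trans Metric.ball_subset_closedBall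
  have bαb : αb ⊆ Metric.closedBall n.b r := (eb3.trans hVb2).trans Metric.ball_subset_closedBall
  have bαm : αm ⊆ Metric.closedBall m r := (em3.trans hVm2).trans Metric.ball_subset_closedBall
  have hMaC : ∀ w ∈ Ma, w ∈ C → w = xa := by
    rintro w hw (((h | h) | h) | h)
    · exact ea9 w hw (Or.inl h)
    · exact ea9 w hw (Or.inr h)
    · exact (Set.disjoint_left.1 Dab (bMa hw) (bαb h)).elim
    · exact (Set.disjoint_left.1 Dam (bMa hw) (bαm h)).elim
  have hMbC : ∀ w ∈ Mb, w ∈ C → w = xb := by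
    rintro w hw (((h | h) | h) | h)
    · exact eb9 w hw (Or.inl h)
    · exact (Set.disjoint_left.1 Dab (bαa h) (bMb hw)).elim
    · exact eb9 w hw (Or.inr h)
    · exact (Set.disjoint_left.1 Dbm (bMb hw) (bαm h)).elim
  have hMmC : ∀ w ∈ Mm, w ∈ C → w = xm := by
    rintro w hw (((h | h) | h) | h)
    · exact em9 w hw (Or.inl h)
    · exact (Set.disjoint_left.1 Dam (bαa h) (bMm hw)).elim
    · exact (Set.disjoint_left.1 Dbm (bαb h) (bMm hw)).elim
    · exact em9 w hw (Or.inr h)
  have hMaM : Ma ⊆ n.M := (ea1.trans hVa1).trans (insert_subset haM hGM)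
  have hMbM : Mb ⊆ n.M := (eb1.trans hVb1).trans (insert_subset hbM hGM)
  have hMmM : Mm ⊆ n.M := (em1.trans hVm1).trans (insert_subset hmM hGM)
  have xaC : xa ∈ C := Or.inl (Or.inl (Or.inr ea7))
  have xbC : xb ∈ C := Or.inl (Or.inr eb7)
  have xmC : xm ∈ C := Or.inr em7
  let c0 : Node X :=
    { M := Ma, A := n.A, B := C, a := n.a, b := xa, bad := ea2, cA := n.cA, cB := hCc.isClosed
      aA := n.aA, bB := xaC, dAB := hCA.symm, hA := fun w hw h => n.hA w (hMaM hw) h, hB := hMaC }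
  let c1 : Node X :=
    { M := Mb, A := C, B := n.B, a := xb, b := n.b, bad := eb2.symm, cA := hCc.isClosed, cB := n.cB
      aA := xbC, bB := n.bB, dAB := hCB, hA := hMbC, hB := fun w hw h => n.hB w (hMbM hw) h }
  let c2 : Node X :=
    { M := Mm, A := C, B := {m}, a := xm, b := m, bad := em2.symm, cA := hCc.isClosed
      cB := isClosed_singleton, aA := xmC, bB := rfl, dAB := hCm, hA := hMmC
      hB := fun w hw h => h }
  let ctr : Fin 3 → X := ![n.a, n.b, m]
  have hcl : ∀ i, closure ((![c0, c1, c2] : Fin 3 → Node X) i).M ⊆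
      Metric.closedBall (ctr i) r := by
    intro i
    fin_cases i
    · exact closure_minimal bMa Metric.isClosed_closedBall
    · exact closure_minimal bMb Metric.isClosed_closedBall
    · exact closure_minimal bMm Metric.isClosed_closedBall
  have hdis : ∀ i j, i ≠ j → Disjoint (Metric.closedBall (ctr i) r)
      (Metric.closedBall (ctr j) r) := by
    intro i j hij
    fin_cases i <;> fin_cases j
    · exact absurd rfl hij
    · exact Dab
    · exact Dam
    · exact Dab.symm
    · exact absurd rfl hij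
    · exact Dbm
    · exact Dam.symm
    · exact Dbm.symm
    · exact absurd rfl hij
  refine ⟨C, ![c0, c1, c2], hCc, hCp, hCM, hCA, hCB, rfl, rfl, rfl, rfl, rfl, rfl, rfl, ?_, ?_,
    ?_, ?_, ?_, ?_, ?_⟩
  · intro i
    fin_cases i
    · exact hMaM
    · exact hMbM
    · exact hMmM
  · intro i
    exact (Metric.diam_le_of_subset_closedBall hr.le (subset_closure.trans (hcl i))).trans hr1
  · intro i j hij
    exact (hdis i j hij).mono (hcl i) (hcl j)
  · exact (hda r hr2).mono_left (hcl 0)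
  · exact (hdb r hr3).mono_left (hcl 1)
  · exact ((hdm r hr4).mono_left (hcl 2)).mono_right subset_union_left
  · exact ((hdm r hr4).mono_left (hcl 2)).mono_right subset_union_right

end Pool.Agent.Helper451.Arcw
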