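import Pool.Agent.Helper451.Arcw.D10

set_option autoImplicit false
set_option linter.unusedSectionVars false
set_option linter.unusedVariables false

open Set Filter Topology

namespace Pool.Agent.Helper451.Arcw

variable {X : Type*} [MetricSpace X]

def nodes (f : ℕ → Node X → Fin 3 → Node X) (r : Node X) : List (Fin 3) → Node X
  | [] => r
  | i :: s => f s.length (nodes f r s) i

theorem exists_tree [CompactSpace X] (hN : Null X) (hL : LC X) {M : Set X} {a b : X} (h : Bad M a b) :
    Nonempty (Tree X) := by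
  have hpos : ∀ k : ℕ, (0 : ℝ) < (1 / 2 : ℝ) ^ k := fun k => by positivity
  choose C c hc using fun (k : ℕ) (n : Node X) => split hN hL n (hpos k)
  let r : Node X := ⟨M, {a}, {b}, a, b, h, isClosed_singleton, isClosed_singleton, rfl, rfl,
    by rw [Set.disjoint_singleton]; exact h.2.2.2.1, fun w _ hw => hw, fun w _ hw => hw⟩
  let T := nodes c r
  have hT : ∀ i s, T (i :: s) = c s.length (T s) i := fun i s => rfl
  refine ⟨⟨fun s => (T s).M, fun s => (T s).A, fun s => (T s).B, fun s => C s.length (T s),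
    fun s => (T s).a, fun s => (T s).b, fun s => (T s).bad.1, fun s => (T s).bad.2.1,
    fun s => (T s).bad.2.2.1, fun s => (T s).aA, fun s => (T s).bB, fun s => (hc s.length (T s)).1,
    fun s => (hc s.length (T s)).2.1, fun s => (hc s.length (T s)).2.2.1,
    fun s => (hc s.length (T s)).2.2.2.1, fun s => (hc s.length (T s)).2.2.2.2.1,
    fun s => (T s).dAB, ?_, ?_, ?_, ?_, ?_, ?_, ?_, ?_, ?_, ?_, ?_, ?_, ?_, ?_⟩⟩
  · intro s; rw [hT]; exact (hc s.length (T s)).2.2.2.2.2.1
  · intro s; rw [hT]; exact (hc s.length (T s)).2.2.2.2.2.2.1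
  · intro s; rw [hT]; exact (hc s.length (T s)).2.2.2.2.2.2.2.1
  · intro s; rw [hT]; exact (hc s.length (T s)).2.2.2.2.2.2.2.2.1
  · intro s; rw [hT]; exact (hc s.length (T s)).2.2.2.2.2.2.2.2.2.1
  · intro s; rw [hT]; exact (hc s.length (T s)).2.2.2.2.2.2.2.2.2.2.1
  · intro s; rw [hT]; exact (hc s.length (T s)).2.2.2.2.2.2.2.2.2.2.2.1
  · intro i s; rw [hT]; exact (hc s.length (T s)).2.2.2.2.2.2.2.2.2.2.2.2.1 i
  · intro i s; rw [hT]; exact (hc s.length (T s)).2.2.2.2.2.2.2.2.2.2.2.2.2.1 i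
  · intro i j s hij; rw [hT, hT]; exact (hc s.length (T s)).2.2.2.2.2.2.2.2.2.2.2.2.2.2.1 i j hij
  · intro s; rw [hT]; exact (hc s.length (T s)).2.2.2.2.2.2.2.2.2.2.2.2.2.2.2.1
  · intro s; rw [hT]; exact (hc s.length (T s)).2.2.2.2.2.2.2.2.2.2.2.2.2.2.2.2.1
  · intro s; rw [hT]; exact (hc s.length (T s)).2.2.2.2.2.2.2.2.2.2.2.2.2.2.2.2.2.1
  · intro s; rw [hT]; exact (hc s.length (T s)).2.2.2.2.2.2.2.2.2.2.2.2.2.2.2.2.2.2

theorem Tree.null_C [CompactSpace X] (T : Tree X) {ε : ℝ} (hε : 0 < ε) :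
    {s | ε ≤ Metric.diam (T.C s)}.Finite := by
  obtain ⟨n, hn⟩ := exists_pow_lt_of_lt_one hε (by norm_num : (1 / 2 : ℝ) < 1)
  apply (List.finite_length_le (Fin 3) n).subset
  intro s hs
  have hs' : ε ≤ Metric.diam (T.C s) := hs
  show s.length ≤ n
  cases s with
  | nil => simp
  | cons i s =>
    have h1 : Metric.diam (T.C (i :: s)) ≤ Metric.diam (closure (T.M (i :: s))) :=
      Metric.diam_mono (T.CM _) Metric.isBounded_of_compactSpace
    rw [Metric.diam_closure] at h1
    have h2 := T.small i s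
    by_contra hlen
    simp only [List.length_cons, not_le] at hlen
    have h3 : (1 / 2 : ℝ) ^ s.length ≤ (1 / 2 : ℝ) ^ n :=
      pow_le_pow_of_le_one (by norm_num) (by norm_num) (by omega)
    linarith

theorem exists_bad [CompactSpace X] (hN : Null X) (hL : LC X) {M : Set X} (hM : IsPreconnected M)
    {u v : X} (hu : u ∈ M) (hv : v ∈ M) (huv : ¬ J M u v) : ∃ (M' : Set X) (a b : X), Bad M' a b := by
  obtain ⟨t, ht, ⟨a, haP, hac⟩, ⟨b, hbQ, hbc⟩⟩ := bridge hL hM (P := {y | J M u y}) (Q := {y | J M v y})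
    (fun w hw => J.mem_right hw) (fun w hw => J.mem_right hw)
    (fun z hz hzc => J_closed hN hz hzc) (fun z hz hzc => J_closed hN hz hzc)
    (Set.disjoint_left.mpr (fun w h1 h2 => huv (J.trans h1 (J.symm h2)))) ⟨u, J.refl hu⟩ ⟨v, J.refl hv⟩
  set E := connectedComponentIn (M \ ({y | J M u y} ∪ {y | J M v y})) t with hE
  have hEs : E ⊆ M \ ({y | J M u y} ∪ {y | J M v y}) := connectedComponentIn_subset _ _
  have hsub : insert a (insert b E) ⊆ M := by
    rintro w (rfl | rfl | hw)
    · exact J.mem_right haP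
    · exact J.mem_right hbQ
    · exact (hEs hw).1
  have hab : ¬ J M a b := fun h => huv ((J.trans haP h).trans (J.symm hbQ))
  refine ⟨insert a (insert b E), a, b, ?_, Or.inl rfl, Or.inr (Or.inl rfl), ?_, ?_, ?_⟩
  · apply isPreconnected_connectedComponentIn.subset_closure
      ((subset_insert b E).trans (subset_insert a _))
    rintro w (rfl | rfl | hw)
    · exact hac
    · exact hbc
    · exact subset_closure hw
  · rintro rfl
    exact hab (J.refl (J.mem_right haP))
  · intro y hy
    have hy' := J.mono hsub hy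
    rcases hy.mem_right with h | h | h
    · exact h
    · subst h; exact absurd hy' hab
    · exact absurd (Or.inl (J.trans haP hy')) (hEs h).2
  · intro y hy
    have hy' := J.mono hsub hy
    rcases hy.mem_right with h | h | h
    · subst h; exact absurd hy'.symm hab
    · exact h
    · exact absurd (Or.inr (J.trans hbQ hy')) (hEs h).2

end Pool.Agent.Helper451.Arcw
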