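import Pool.Agent.Helper451.Arcw.D0

set_option autoImplicit false
set_option linter.unusedSectionVars false
set_option linter.unusedVariables false

open Set Filter Topology

namespace Pool.Agent.Helper451.Arcw

variable {X : Type*} [MetricSpace X]

theorem preconn_iInter {Y : Type*} [TopologicalSpace Y] [T2Space Y] [NormalSpace Y] {S : ℕ → Set Y}
    (hS : Antitone S) (hc : ∀ n, IsCompact (S n)) (hp : ∀ n, IsPreconnected (S n)) :
    IsPreconnected (⋂ n, S n) := by
  rw [isPreconnected_closed_iff]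
  intro t t' ht ht' hsub h1 h2
  by_contra hne
  have hcl : IsClosed (⋂ n, S n) := isClosed_iInter fun n => (hc n).isClosed
  have hd : Disjoint ((⋂ n, S n) ∩ t) ((⋂ n, S n) ∩ t') := by
    rw [Set.disjoint_left]
    rintro x ⟨hx, hxt⟩ ⟨_, hxt'⟩
    exact hne ⟨x, hx, hxt, hxt'⟩
  obtain ⟨U, V, hU, hV, hEU, hFV, hUV⟩ := normal_separation (hcl.inter ht) (hcl.inter ht') hd
  obtain ⟨n, hn⟩ := exists_subset_nhds_of_isCompact' (V := S) (U := U ∪ V)
    (directed_of_isDirected_le fun i j hij => hS hij) hc (fun n => (hc n).isClosed) (by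
      intro x hx
      rcases hsub hx with hxt | hxt
      · exact mem_of_superset (hU.mem_nhds (hEU ⟨hx, hxt⟩)) subset_union_left
      · exact mem_of_superset (hV.mem_nhds (hFV ⟨hx, hxt⟩)) subset_union_right)
  obtain ⟨x, hx, hxt⟩ := h1
  obtain ⟨y, hy, hyt⟩ := h2
  obtain ⟨z, _, hzU, hzV⟩ := hp n U V hU hV hn ⟨x, mem_iInter.1 hx n, hEU ⟨hx, hxt⟩⟩
    ⟨y, mem_iInter.1 hy n, hFV ⟨hy, hyt⟩⟩
  exact Set.disjoint_left.1 hUV hzU hzV

def Tree.S (T : Tree X) : ℕ → List (Fin 3) → Set X
  | 0, s => closure (T.M s)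
  | n + 1, s => T.C s ∪ ⋃ i, T.S n (i :: s)

theorem Tree.S_zero (T : Tree X) (s : List (Fin 3)) : T.S 0 s = closure (T.M s) := rfl

theorem Tree.S_succ (T : Tree X) (n : ℕ) (s : List (Fin 3)) :
    T.S (n + 1) s = T.C s ∪ ⋃ i, T.S n (i :: s) := rfl

def Tree.L (T : Tree X) (s : List (Fin 3)) : Set X := ⋂ n, T.S n s

theorem Tree.b0C (T : Tree X) (s : List (Fin 3)) : T.b (0 :: s) ∈ T.C s := by
  have := T.bB (0 :: s); rw [T.B0] at this; exact this

theorem Tree.a1C (T : Tree X) (s : List (Fin 3)) : T.a (1 :: s) ∈ T.C s := by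
  have := T.aA (1 :: s); rw [T.A1] at this; exact this

theorem Tree.a2C (T : Tree X) (s : List (Fin 3)) : T.a (2 :: s) ∈ T.C s := by
  have := T.aA (2 :: s); rw [T.A2] at this; exact this

theorem Tree.S_ab (T : Tree X) (n : ℕ) : ∀ s, T.a s ∈ T.S n s ∧ T.b s ∈ T.S n s := by
  induction n with
  | zero => intro s; exact ⟨subset_closure (T.aM s), subset_closure (T.bM s)⟩
  | succ n ih =>
    intro s
    rw [T.S_succ]
    constructor
    · right
      refine mem_iUnion.2 ⟨0, ?_⟩
      rw [← T.a0]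
      exact (ih _).1
    · right
      refine mem_iUnion.2 ⟨1, ?_⟩
      rw [← T.b1]
      exact (ih _).2

theorem Tree.S_meet (T : Tree X) (n : ℕ) (s : List (Fin 3)) (i : Fin 3) :
    ∃ x ∈ T.C s, x ∈ T.S n (i :: s) := by
  fin_cases i
  · exact ⟨_, T.b0C s, (T.S_ab n _).2⟩
  · exact ⟨_, T.a1C s, (T.S_ab n _).1⟩
  · exact ⟨_, T.a2C s, (T.S_ab n _).1⟩

theorem Tree.S_compact [CompactSpace X] (T : Tree X) (n : ℕ) : ∀ s, IsCompact (T.S n s) := by
  induction n with
  | zero => intro s; exact isClosed_closure.isCompact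
  | succ n ih =>
    intro s
    rw [T.S_succ]
    exact (T.cC s).union (isCompact_iUnion fun i => ih _)

theorem Tree.S_preconn (T : Tree X) (n : ℕ) : ∀ s, IsPreconnected (T.S n s) := by
  induction n with
  | zero => intro s; exact (T.pM s).closure
  | succ n ih =>
    intro s
    rw [T.S_succ, Set.union_iUnion]
    apply isPreconnected_iUnion
    · exact ⟨T.b (0 :: s), mem_iInter.2 fun i => Or.inl (T.b0C s)⟩
    · intro i
      obtain ⟨x, hx, hx'⟩ := T.S_meet n s i
      exact (T.pC s).union' ⟨x, hx, hx'⟩ (ih _)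

theorem Tree.S_C (T : Tree X) (n : ℕ) (s : List (Fin 3)) : T.C s ⊆ T.S n s := by
  cases n with
  | zero => exact T.CM s
  | succ n => rw [T.S_succ]; exact subset_union_left

theorem Tree.cl_sub (T : Tree X) (i : Fin 3) (s : List (Fin 3)) :
    closure (T.M (i :: s)) ⊆ closure (T.M s) := closure_mono (T.sub i s)

theorem Tree.S_anti_succ (T : Tree X) (n : ℕ) : ∀ s, T.S (n + 1) s ⊆ T.S n s := by
  induction n with
  | zero =>
    intro s
    rw [T.S_succ]
    refine union_subset (T.CM s) (iUnion_subset fun i => ?_)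
    exact T.cl_sub i s
  | succ n ih =>
    intro s
    rw [T.S_succ (n + 1), T.S_succ n]
    exact union_subset_union_right _ (iUnion_mono fun i => ih _)

theorem Tree.S_anti (T : Tree X) (s : List (Fin 3)) : Antitone fun n => T.S n s :=
  antitone_nat_of_succ_le fun n => T.S_anti_succ n s

theorem Tree.L_compact [CompactSpace X] (T : Tree X) (s : List (Fin 3)) : IsCompact (T.L s) :=
  (isClosed_iInter fun n => (T.S_compact n s).isClosed).isCompact

theorem Tree.L_preconn [CompactSpace X] (T : Tree X) (s : List (Fin 3)) :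
    IsPreconnected (T.L s) :=
  preconn_iInter (T.S_anti s) (fun n => T.S_compact n s) (fun n => T.S_preconn n s)

theorem Tree.L_C (T : Tree X) (s : List (Fin 3)) : T.C s ⊆ T.L s :=
  fun _ hx => mem_iInter.2 fun n => T.S_C n s hx

theorem Tree.L_a (T : Tree X) (s : List (Fin 3)) : T.a s ∈ T.L s :=
  mem_iInter.2 fun n => (T.S_ab n s).1

theorem Tree.L_b (T : Tree X) (s : List (Fin 3)) : T.b s ∈ T.L s :=
  mem_iInter.2 fun n => (T.S_ab n s).2

theorem Tree.L_cl (T : Tree X) (s : List (Fin 3)) : T.L s ⊆ closure (T.M s) :=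
  fun _ hx => mem_iInter.1 hx 0

theorem Tree.L_child (T : Tree X) (i : Fin 3) (s : List (Fin 3)) : T.L (i :: s) ⊆ T.L s := by
  intro x hx
  refine mem_iInter.2 fun n => T.S_anti_succ n s ?_
  rw [T.S_succ]
  exact Or.inr (mem_iUnion.2 ⟨i, mem_iInter.1 hx n⟩)

theorem Tree.L_nil (T : Tree X) (s : List (Fin 3)) : T.L s ⊆ T.L [] := by
  induction s with
  | nil => exact subset_rfl
  | cons i s ih => exact (T.L_child i s).trans ih

theorem Tree.L_cases (T : Tree X) (s : List (Fin 3)) {x : X} (hx : x ∈ T.L s) (hC : x ∉ T.C s) :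
    ∃ i, x ∈ T.L (i :: s) := by
  have h1 : ∀ n, ∃ i, x ∈ T.S n (i :: s) := by
    intro n
    have := mem_iInter.1 hx (n + 1)
    rw [T.S_succ] at this
    rcases this with h | h
    · exact absurd h hC
    · exact mem_iUnion.1 h
  obtain ⟨i, hi⟩ := h1 0
  refine ⟨i, mem_iInter.2 fun n => ?_⟩
  obtain ⟨j, hj⟩ := h1 n
  have hj0 : x ∈ T.S 0 (j :: s) := T.S_anti (j :: s) (Nat.zero_le n) hj
  have : j = i := by
    by_contra hne
    exact Set.disjoint_left.1 (T.disj j i s hne) hj0 hi
  rw [← this]; exact hj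

theorem Tree.level (T : Tree X) : ∀ s t : List (Fin 3), s.length = t.length → s ≠ t →
    Disjoint (closure (T.M s)) (closure (T.M t)) := by
  intro s
  induction s with
  | nil =>
    intro t h1 h2
    exfalso
    cases t with
    | nil => exact h2 rfl
    | cons j t => simp at h1
  | cons i s ih =>
    intro t h1 h2
    cases t with
    | nil => simp at h1
    | cons j t =>
      simp only [List.length_cons, Nat.add_right_cancel_iff] at h1
      by_cases hst : s = t
      · subst hst
        apply T.disj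
        rintro rfl
        exact h2 rfl
      · exact (ih t h1 hst).mono (T.cl_sub i s) (T.cl_sub j t)

theorem Tree.anc (T : Tree X) (u t : List (Fin 3)) :
    closure (T.M (u ++ t)) ⊆ closure (T.M t) := by
  induction u with
  | nil => exact subset_rfl
  | cons i u ih => exact (T.cl_sub i _).trans ih

theorem Tree.desc (T : Tree X) (t : List (Fin 3)) : ∀ u : List (Fin 3), u ≠ [] →
    Disjoint (T.C t) (closure (T.M (u ++ t))) ∨ T.C t = T.A (u ++ t) ∨ T.C t = T.B (u ++ t) := by
  intro u
  induction u with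
  | nil => intro h; exact absurd rfl h
  | cons i u ih =>
    intro _
    by_cases hu : u = []
    · subst hu
      simp only [List.cons_append, List.nil_append]
      fin_cases i
      · right; right; exact (T.B0 t).symm
      · right; left; exact (T.A1 t).symm
      · right; left; exact (T.A2 t).symm
    · simp only [List.cons_append]
      rcases ih hu with h | h | h
      · left; exact h.mono_right (T.cl_sub i _)
      · fin_cases i
        · right; left; rw [h]; exact (T.A0 _).symm
        · left; rw [h]; exact (T.d1 _).symm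
        · left; rw [h]; exact (T.d2A _).symm
      · fin_cases i
        · left; rw [h]; exact (T.d0 _).symm
        · right; right; rw [h]; exact (T.B1 _).symm
        · left; rw [h]; exact (T.d2B _).symm

theorem split_len (s : List (Fin 3)) (k : ℕ) (hk : k ≤ s.length) :
    ∃ u v : List (Fin 3), s = u ++ v ∧ v.length = k := by
  refine ⟨s.take (s.length - k), s.drop (s.length - k), (List.take_append_drop _ _).symm, ?_⟩
  rw [List.length_drop]; omega

theorem Tree.disjoint_C (T : Tree X) {s t : List (Fin 3)} (h : s ≠ t) : Disjoint (T.C s) (T.C t) := by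
  have key : ∀ s t : List (Fin 3), s ≠ t → s.length ≤ t.length → Disjoint (T.C s) (T.C t) := by
    intro s t hst hlen
    obtain ⟨u, v, rfl, hv⟩ := split_len t s.length hlen
    by_cases hvs : v = s
    · subst hvs
      have hu : u ≠ [] := by
        rintro rfl
        exact hst (by simp)
      rcases T.desc v u hu with h | h | h
      · exact h.mono_right (T.CM _)
      · rw [h]; exact (T.CA _).symm
      · rw [h]; exact (T.CB _).symm
    · exact (T.level s v hv.symm (fun h => hvs h.symm)).mono (T.CM s) ((T.CM _).trans (T.anc u v))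
  rcases le_total s.length t.length with h1 | h1
  · exact key s t h h1
  · exact (key t s h.symm h1).symm

theorem Tree.meet (T : Tree X) {i j : Fin 3} (hij : i ≠ j) {s t : List (Fin 3)}
    (hi : ¬ Disjoint (T.C t) (closure (T.M (i :: s))))
    (hj : ¬ Disjoint (T.C t) (closure (T.M (j :: s)))) : t = s := by
  rcases lt_trichotomy t.length s.length with hlt | heq | hgt
  · obtain ⟨u, v, rfl, hv⟩ := split_len s t.length hlt.le
    have hvt : v = t := by
      by_contra hne
      apply hi
      exact (T.level v t hv hne).symm.mono (T.CM t) ((T.cl_sub i _).trans (T.anc u v))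
    subst hvt
    exfalso
    have hu : u ≠ [] := by
      rintro rfl
      simp at hlt
    rcases T.desc v u hu with h | h | h
    · exact hi (h.mono_right (T.cl_sub i _))
    · have key : ∀ k : Fin 3, ¬ Disjoint (T.C v) (closure (T.M (k :: (u ++ v)))) → k = 0 := by
        intro k hk
        by_contra hk0
        apply hk
        rw [h]
        fin_cases k
        · exact absurd rfl hk0
        · exact (T.d1 _).symm
        · exact (T.d2A _).symm
      exact hij ((key i hi).trans (key j hj).symm)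
    · have key : ∀ k : Fin 3, ¬ Disjoint (T.C v) (closure (T.M (k :: (u ++ v)))) → k = 1 := by
        intro k hk
        by_contra hk0
        apply hk
        rw [h]
        fin_cases k
        · exact (T.d0 _).symm
        · exact absurd rfl hk0
        · exact (T.d2B _).symm
      exact hij ((key i hi).trans (key j hj).symm)
  · by_contra hne
    exact hi ((T.level t s heq hne).mono (T.CM t) (T.cl_sub i s))
  · exfalso
    obtain ⟨u, v, rfl, hv⟩ := split_len t (s.length + 1) hgt
    have key : ∀ k : Fin 3, ¬ Disjoint (T.C (u ++ v)) (closure (T.M (k :: s))) → v = k :: s := by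
      intro k hk
      by_contra hne
      apply hk
      exact (T.level v (k :: s) (by simpa using hv) hne).mono_left ((T.CM _).trans (T.anc u v))
    have e := (key i hi).symm.trans (key j hj)
    exact hij (List.cons.inj e).1

theorem Tree.point (T : Tree X) {Z : Type*} [MetricSpace Z] {h : X → Z}
    (hfib' : ∀ s, ∀ x ∈ T.C s, ∀ y ∈ T.C s, h x = h y) {x : X} (hx : x ∈ T.L []) :
    ∃ p, h p = h x ∧ ∀ k, ∃ s : List (Fin 3), k ≤ s.length ∧ p ∈ T.L s := by
  by_cases hC : ∃ s, x ∈ T.C s
  · obtain ⟨s, hs⟩ := hC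
    refine ⟨T.a (1 :: s), hfib' s _ (T.a1C s) _ hs, fun k => ?_⟩
    refine ⟨List.replicate k 0 ++ (1 :: s), by simp, ?_⟩
    have : T.a (List.replicate k 0 ++ (1 :: s)) = T.a (1 :: s) := by
      induction k with
      | zero => rfl
      | succ k ih => rw [List.replicate_succ, List.cons_append, T.a0, ih]
    rw [← this]
    exact T.L_a _
  · push Not at hC
    refine ⟨x, rfl, fun k => ?_⟩
    have : ∃ s : List (Fin 3), s.length = k ∧ x ∈ T.L s := by
      induction k with
      | zero => exact ⟨[], rfl, hx⟩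
      | succ k ih =>
        obtain ⟨s, hs, hxs⟩ := ih
        obtain ⟨i, hi⟩ := T.L_cases s hxs (hC s)
        exact ⟨i :: s, by simp [hs], hi⟩
    obtain ⟨s, hs, hxs⟩ := this
    exact ⟨s, hs.ge, hxs⟩

theorem Tree.small_L [CompactSpace X] (T : Tree X) {p : X} {W : Set X} (hW : IsOpen W) (hp : p ∈ W)
    (hk : ∀ k, ∃ s : List (Fin 3), k ≤ s.length ∧ p ∈ T.L s) : ∃ s, T.L s ⊆ W := by
  obtain ⟨ε, hε, hball⟩ := Metric.isOpen_iff.1 hW p hp
  obtain ⟨k, hkε⟩ := exists_pow_lt_of_lt_one hε (by norm_num : (1 / 2 : ℝ) < 1)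
  obtain ⟨s, hs, hps⟩ := hk (k + 1)
  refine ⟨s, fun y hy => hball ?_⟩
  cases s with
  | nil => simp at hs
  | cons i s =>
    rw [Metric.mem_ball]
    have h1 : dist y p ≤ Metric.diam (closure (T.M (i :: s))) :=
      Metric.dist_le_diam_of_mem (Bornology.IsBounded.all _) (T.L_cl _ hy) (T.L_cl _ hps)
    rw [Metric.diam_closure] at h1
    have h2 := T.small i s
    have h3 : (1 / 2 : ℝ) ^ s.length ≤ (1 / 2) ^ k := by
      apply pow_le_pow_of_le_one (by norm_num) (by norm_num)
      simpa using hs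
    linarith

theorem three_sides {K : Fin 3 → Set ℝ} (hK : ∀ i, OrdConnected (K i)) {t0 : ℝ} {u : Fin 3 → ℝ}
    (h0 : ∀ i, t0 ∈ K i) (hu : ∀ i, u i ∈ K i) (hne : ∀ i, u i ≠ t0)
    (hmeet : ∀ i j, i ≠ j → ∀ x, x ∈ K i → x ∈ K j → x = t0) : False := by
  have key1 : ∀ i j, i ≠ j → t0 < u i → t0 < u j → False := by
    intro i j hij hi hj
    have h1 : min (u i) (u j) ∈ K i := (hK i).out (h0 i) (hu i) ⟨le_min hi.le hj.le, min_le_left _ _⟩
    have h2 : min (u i) (u j) ∈ K j := (hK j).out (h0 j) (hu j) ⟨le_min hi.le hj.le, min_le_right _ _⟩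
    have h3 := hmeet i j hij _ h1 h2
    have h4 : t0 < min (u i) (u j) := lt_min hi hj
    linarith
  have key2 : ∀ i j, i ≠ j → u i < t0 → u j < t0 → False := by
    intro i j hij hi hj
    have h1 : max (u i) (u j) ∈ K i := (hK i).out (hu i) (h0 i) ⟨le_max_left _ _, max_le hi.le hj.le⟩
    have h2 : max (u i) (u j) ∈ K j := (hK j).out (hu j) (h0 j) ⟨le_max_right _ _, max_le hi.le hj.le⟩
    have h3 := hmeet i j hij _ h1 h2
    have h4 : max (u i) (u j) < t0 := max_lt hi hj
    linarith
  rcases lt_or_gt_of_ne (hne 0) with a | a <;> rcases lt_or_gt_of_ne (hne 1) with b | b <;>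
    rcases lt_or_gt_of_ne (hne 2) with c | c
  · exact key2 0 1 (by decide) a b
  · exact key2 0 1 (by decide) a b
  · exact key2 0 2 (by decide) a c
  · exact key1 1 2 (by decide) b c
  · exact key2 1 2 (by decide) b c
  · exact key1 0 2 (by decide) a c
  · exact key1 0 1 (by decide) a b
  · exact key1 0 1 (by decide) a b

/-- three preconnected sets in an arc -/
theorem three_arc {Z : Type*} [MetricSpace Z] {A : Set Z} (φ : ↥A ≃ₜ unitInterval)
    {K : Fin 3 → Set Z} (hK : ∀ i, IsPreconnected (K i)) (hKA : ∀ i, K i ⊆ A) {c : Z} {q : Fin 3 → Z}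
    (h0 : ∀ i, c ∈ K i) (hq : ∀ i, q i ∈ K i) (hne : ∀ i, q i ≠ c)
    (hmeet : ∀ i j, i ≠ j → ∀ x, x ∈ K i → x ∈ K j → x = c) : False := by
  let f : ↥A → ℝ := fun z => ((φ z : unitInterval) : ℝ)
  have hf : Continuous f := continuous_subtype_val.comp φ.continuous
  have hinj : Function.Injective f := fun x y hxy => φ.injective (Subtype.ext hxy)
  let K' : Fin 3 → Set ↥A := fun i => Subtype.val ⁻¹' (K i)
  have hK' : ∀ i, IsPreconnected (K' i) := by
    intro i
    rw [← Topology.IsInducing.subtypeVal.isPreconnected_image]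
    have : Subtype.val '' (K' i) = K i := by
      rw [Subtype.image_preimage_coe, inter_eq_right.2 (hKA i)]
    rw [this]
    exact hK i
  have hcA : c ∈ A := hKA 0 (h0 0)
  have hqA : ∀ i, q i ∈ A := fun i => hKA i (hq i)
  refine three_sides (K := fun i => f '' (K' i)) (t0 := f ⟨c, hcA⟩) (u := fun i => f ⟨q i, hqA i⟩)
    (fun i => ((hK' i).image f hf.continuousOn).ordConnected)
    (fun i => ⟨⟨c, hcA⟩, h0 i, rfl⟩) (fun i => ⟨⟨q i, hqA i⟩, hq i, rfl⟩) ?_ ?_
  · intro i he
    have := hinj he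
    exact hne i (congrArg Subtype.val this)
  · rintro i j hij x ⟨y, hy, rfl⟩ ⟨z, hz, hzy⟩
    have := hinj hzy
    subst this
    have hz0 := hmeet i j hij z.1 hy hz
    congr 1
    exact Subtype.ext hz0

theorem Tree.no_arcs [CompactSpace X] (T : Tree X) {Z : Type*} [MetricSpace Z] {h : X → Z}
    (hh : Continuous h) (hfib : ∀ x y, h x = h y → x = y ∨ ∃ s, x ∈ T.C s ∧ y ∈ T.C s)
    (hfib' : ∀ s, ∀ x ∈ T.C s, ∀ y ∈ T.C s, h x = h y)
    {A : ℕ → Set Z} (hA : ∀ n, Nonempty (↥(A n) ≃ₜ unitInterval)) (hcov : (⋃ n, A n) = univ) : False := by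
  -- Baire
  have hAc : ∀ n, IsCompact (A n) := by
    intro n
    obtain ⟨φ⟩ := hA n
    rw [isCompact_iff_compactSpace]
    exact φ.symm.compactSpace
  have hKc : IsCompact (h '' (T.L [])) := (T.L_compact []).image hh
  have hmain : ∃ n, ∃ s, h '' (T.L s) ⊆ A n := by
    have : CompactSpace ↥(h '' (T.L [])) := isCompact_iff_compactSpace.1 hKc
    have : Nonempty ↥(h '' (T.L [])) := ⟨⟨h (T.a []), mem_image_of_mem h (T.L_a [])⟩⟩
    obtain ⟨n, ⟨y, hyK⟩, hy⟩ := nonempty_interior_of_iUnion_of_closed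
      (X := ↥(h '' (T.L []))) (f := fun n : ℕ => Subtype.val ⁻¹' (A n))
      (fun n => (hAc n).isClosed.preimage continuous_subtype_val) (by
        rw [← preimage_iUnion, hcov, preimage_univ])
    have hopen : IsOpen (interior (Subtype.val ⁻¹' (A n) : Set ↥(h '' (T.L [])))) := isOpen_interior
    obtain ⟨O, hO, hOe⟩ := isOpen_induced_iff.1 hopen
    have hyO : y ∈ O := by
      have : (⟨y, hyK⟩ : ↥(h '' (T.L []))) ∈ Subtype.val ⁻¹' O := by rw [hOe]; exact hy
      exact this
    have hOA : ∀ z ∈ O, z ∈ h '' (T.L []) → z ∈ A n := by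
      intro z hz hzK
      have h1 : (⟨z, hzK⟩ : ↥(h '' (T.L []))) ∈
          interior (Subtype.val ⁻¹' (A n) : Set ↥(h '' (T.L []))) := by
        rw [← hOe]; exact hz
      have h2 : (⟨z, hzK⟩ : ↥(h '' (T.L []))) ∈ (Subtype.val ⁻¹' (A n) : Set ↥(h '' (T.L []))) :=
        interior_subset h1
      exact h2
    obtain ⟨x, hx, rfl⟩ := hyK
    obtain ⟨p, hpx, hpk⟩ := T.point hfib' hx
    obtain ⟨s, hs⟩ := T.small_L (hO.preimage hh) (p := p) (by
      change h p ∈ O
      rw [hpx]; exact hyO) hpk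
    refine ⟨n, s, ?_⟩
    rintro _ ⟨w, hw, rfl⟩
    exact hOA _ (hs hw) (mem_image_of_mem h (T.L_nil s hw))
  obtain ⟨n, s, hs⟩ := hmain
  obtain ⟨φ⟩ := hA n
  have hp0 : T.b (0 :: s) ∈ T.C s := T.b0C s
  have hnotC : ∀ q, q ∉ T.C s → h q ≠ h (T.b (0 :: s)) := by
    intro q hq he
    rcases hfib _ _ he with h1 | ⟨t, h1, h2⟩
    · rw [h1] at hq; exact hq hp0
    · have hts : t = s := by
        by_contra hne
        exact Set.disjoint_left.1 (T.disjoint_C hne) h2 hp0
      rw [hts] at h1
      exact hq h1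
  let q : Fin 3 → X := ![T.a s, T.b s, T.b (2 :: s)]
  refine three_arc φ (K := fun i => h '' (T.L (i :: s))) (c := h (T.b (0 :: s))) (q := fun i => h (q i))
    ?_ ?_ ?_ ?_ ?_ ?_
  · intro i
    exact (T.L_preconn _).image h hh.continuousOn
  · intro i
    exact (image_mono (T.L_child i s)).trans hs
  · intro i
    fin_cases i
    · exact mem_image_of_mem h (T.L_b _)
    · rw [hfib' s _ hp0 _ (T.a1C s)]
      exact mem_image_of_mem h (T.L_a _)
    · rw [hfib' s _ hp0 _ (T.a2C s)]
      exact mem_image_of_mem h (T.L_a _)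
  · intro i
    fin_cases i
    · change h (T.a s) ∈ _
      rw [← T.a0 s]
      exact mem_image_of_mem h (T.L_a _)
    · change h (T.b s) ∈ _
      rw [← T.b1 s]
      exact mem_image_of_mem h (T.L_b _)
    · exact mem_image_of_mem h (T.L_b _)
  · intro i
    apply hnotC
    fin_cases i
    · exact fun hc => Set.disjoint_left.1 (T.CA s) hc (T.aA s)
    · exact fun hc => Set.disjoint_left.1 (T.CB s) hc (T.bB s)
    · intro hc
      refine Set.disjoint_left.1 (T.AB (2 :: s)) ?_ (T.bB (2 :: s))
      rw [T.A2]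
      exact hc
  · rintro i j hij z ⟨x, hx, rfl⟩ ⟨y, hy, hyx⟩
    rcases hfib _ _ hyx with h1 | ⟨t, h1, h2⟩
    · exfalso
      rw [h1] at hy
      exact Set.disjoint_left.1 (T.disj i j s hij) (T.L_cl _ hx) (T.L_cl _ hy)
    · have hts : t = s := by
        apply T.meet hij (t := t) (s := s)
        · exact Set.not_disjoint_iff.2 ⟨x, h2, T.L_cl _ hx⟩
        · exact Set.not_disjoint_iff.2 ⟨y, h1, T.L_cl _ hy⟩
      rw [hts] at h2
      exact hfib' s _ h2 _ hp0

end Pool.Agent.Helper451.Arcw
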