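import Pool.Agent.Helper451.Arcw.D0

set_option autoImplicit false
set_option linter.unusedSectionVars false
set_option linter.unusedVariables false

open Set Filter Topology

namespace Pool.Agent.Helper451.Arcw

variable {X : Type*} [MetricSpace X]

theorem exists_quot {X : Type} [MetricSpace X] [CompactSpace X] {ι : Type} (C : ι → Set X)
    (hc : ∀ i, IsCompact (C i)) (hp : ∀ i, IsConnected (C i))
    (hd : ∀ i j, i ≠ j → Disjoint (C i) (C j)) (hn : ∀ ε : ℝ, 0 < ε → {i | ε ≤ Metric.diam (C i)}.Finite) :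
    ∃ (Y : Type) (_ : TopologicalSpace Y) (_ : T2Space Y) (f : X → Y), Continuous f ∧
      Function.Surjective f ∧ (∀ y, IsConnected (f ⁻¹' {y})) ∧
      (∀ x y, f x = f y → x = y ∨ ∃ i, x ∈ C i ∧ y ∈ C i) ∧
      (∀ i, ∀ x ∈ C i, ∀ y ∈ C i, f x = f y) := by
  classical
  have huniq : ∀ i j y, y ∈ C i → y ∈ C j → i = j := fun i j y hi hj =>
    by_contra fun h => Set.disjoint_left.mp (hd i j h) hi hj
  let S : Setoid X :=
    { r := fun x y => x = y ∨ ∃ i, x ∈ C i ∧ y ∈ C i
      iseqv := ⟨fun x => Or.inl rfl, by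
        rintro x y (rfl | ⟨i, h1, h2⟩)
        · exact Or.inl rfl
        · exact Or.inr ⟨i, h2, h1⟩, by
        rintro x y z (rfl | ⟨i, h1, h2⟩) (rfl | ⟨j, h3, h4⟩)
        · exact Or.inl rfl
        · exact Or.inr ⟨j, h3, h4⟩
        · exact Or.inr ⟨i, h1, h2⟩
        · obtain rfl := huniq i j _ h2 h3
          exact Or.inr ⟨i, h1, h4⟩⟩ }
  set R : Set (X × X) := {p | p.1 = p.2 ∨ ∃ i, p.1 ∈ C i ∧ p.2 ∈ C i} with hRdef
  have hR : IsClosed R := by
    rw [← isOpen_compl_iff, isOpen_iff_mem_nhds]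
    rintro ⟨x, y⟩ hxy
    have hne : x ≠ y := fun h => hxy (Or.inl h)
    have hni : ∀ i, ¬ (x ∈ C i ∧ y ∈ C i) := fun i h => hxy (Or.inr ⟨i, h⟩)
    have hpos : 0 < dist x y := dist_pos.mpr hne
    have hF := hn (dist x y / 2) (by linarith)
    have hWo : IsOpen ({p : X × X | dist x y / 2 < dist p.1 p.2} ∩
        ⋂ i ∈ {i | dist x y / 2 ≤ Metric.diam (C i)}, (C i ×ˢ C i)ᶜ) := by
      refine (isOpen_lt continuous_const (continuous_fst.dist continuous_snd)).inter ?_
      exact hF.isOpen_biInter fun i _ =>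
        (((hc i).isClosed.prod (hc i).isClosed)).isOpen_compl
    refine Filter.mem_of_superset (hWo.mem_nhds ⟨?_, ?_⟩) ?_
    · show dist x y / 2 < dist x y
      linarith
    · refine mem_iInter₂.mpr fun i _ h => hni i ?_
      exact ⟨h.1, h.2⟩
    · rintro ⟨u, v⟩ ⟨h1, h2⟩ h3
      have h1' : dist x y / 2 < dist u v := h1
      rcases h3 with h3 | ⟨i, h3, h4⟩
      · have h3' : u = v := h3
        rw [h3', dist_self] at h1'
        linarith
      · have h5 : dist u v ≤ Metric.diam (C i) :=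
          Metric.dist_le_diam_of_mem (hc i).isBounded h3 h4
        exact mem_iInter₂.mp h2 i (show dist x y / 2 ≤ Metric.diam (C i) by linarith) ⟨h3, h4⟩
  let f : X → Quotient S := Quotient.mk S
  have hfc : Continuous f := continuous_quotient_mk'
  have hfs : Function.Surjective f := Quotient.mk_surjective
  have hfeq : ∀ x y, f x = f y ↔ (x = y ∨ ∃ i, x ∈ C i ∧ y ∈ C i) := fun x y => Quotient.eq
  have hcl : IsClosedMap f := by
    intro F hF
    have hq : IsQuotientMap f := isQuotientMap_quotient_mk'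
    rw [← hq.isClosed_preimage]
    have : f ⁻¹' (f '' F) = Prod.snd '' (R ∩ Prod.fst ⁻¹' F) := by
      ext y
      constructor
      · rintro ⟨x, hx, hxy⟩
        exact ⟨(x, y), ⟨(hfeq x y).mp hxy, hx⟩, rfl⟩
      · rintro ⟨⟨x, z⟩, ⟨h1, h2⟩, rfl⟩
        exact ⟨x, h2, (hfeq x z).mpr h1⟩
    rw [this]
    exact ((hR.inter (hF.preimage continuous_fst)).isCompact.image continuous_snd).isClosed
  have hT2 : T2Space (Quotient S) := by
    refine ⟨fun p q hpq => ?_⟩
    obtain ⟨x, rfl⟩ := hfs p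
    obtain ⟨y, rfl⟩ := hfs q
    have hK : ∀ z, IsClosed (f ⁻¹' {f z}) := fun z => by
      have : IsClosed (f '' {z}) := hcl _ isClosed_singleton
      rw [image_singleton] at this
      exact this.preimage hfc
    have hdis : Disjoint (f ⁻¹' {f x}) (f ⁻¹' {f y}) := by
      rw [Set.disjoint_left]
      intro w hw1 hw2
      have h1 : f w = f x := hw1
      have h2 : f w = f y := hw2
      exact hpq (h1.symm.trans h2)
    obtain ⟨U1, U2, ho1, ho2, hs1, hs2, hU⟩ := normal_separation (hK x) (hK y) hdis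
    refine ⟨(f '' U1ᶜ)ᶜ, (f '' U2ᶜ)ᶜ, (hcl _ ho1.isClosed_compl).isOpen_compl,
      (hcl _ ho2.isClosed_compl).isOpen_compl, ?_, ?_, ?_⟩
    · rintro ⟨u, hu, huf⟩
      exact hu (hs1 huf)
    · rintro ⟨u, hu, huf⟩
      exact hu (hs2 huf)
    · rw [Set.disjoint_left]
      intro z hz1 hz2
      obtain ⟨w, rfl⟩ := hfs z
      have h1 : w ∈ U1 := by_contra fun h => hz1 ⟨w, h, rfl⟩
      have h2 : w ∈ U2 := by_contra fun h => hz2 ⟨w, h, rfl⟩
      exact Set.disjoint_left.mp hU h1 h2
  refine ⟨Quotient S, inferInstance, hT2, f, hfc, hfs, ?_, fun x y h => (hfeq x y).mp h,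
    fun i x hx y hy => (hfeq x y).mpr (Or.inr ⟨i, hx, hy⟩)⟩
  intro q
  obtain ⟨x, rfl⟩ := hfs q
  by_cases h : ∃ i, x ∈ C i
  · obtain ⟨i, hi⟩ := h
    have : f ⁻¹' {f x} = C i := by
      ext w
      constructor
      · intro hw
        rcases (hfeq w x).mp hw with rfl | ⟨j, h1, h2⟩
        · exact hi
        · obtain rfl := huniq i j _ hi h2
          exact h1
      · intro hw
        exact (hfeq w x).mpr (Or.inr ⟨i, hw, hi⟩)
    rw [this]
    exact hp i
  · have : f ⁻¹' {f x} = {x} := by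
      ext w
      constructor
      · intro hw
        rcases (hfeq w x).mp hw with rfl | ⟨j, h1, h2⟩
        · exact rfl
        · exact absurd ⟨j, h2⟩ h
      · intro hw
        have : w = x := hw
        rw [this]
        exact rfl
    rw [this]
    exact isConnected_singleton

end Pool.Agent.Helper451.Arcw
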