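import Pool.Agent.Helper451.Arcw.D0
import Pool.Agent.Helper451.Reg.Fin

set_option autoImplicit false
set_option linter.unusedSectionVars false
set_option linter.unusedVariables false

open Set Filter Topology unitInterval

namespace Pool.Agent.Helper451.Arcw

/- the next two lemmas are due to helper166 -/

/-- a null continuum is path connected -/
lemma exists_path {X : Type*} [MetricSpace X] [CompactSpace X] [ConnectedSpace X] (hN : Reg.Null X)
    (x y : X) : ∃ l : I → X, Continuous l ∧ l 0 = x ∧ l 1 = y := by
  have := Reg.locConn hN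
  set D := Metric.diam (univ : Set X) + 1 with hD
  have hD0 : 0 < D := by
    have := Metric.diam_nonneg (s := (univ : Set X))
    linarith
  have hDd : ∀ u v : X, dist u v ≤ D := by
    intro u v
    have := Metric.dist_le_diam_of_mem (Metric.isBounded_of_compactSpace (s := (univ : Set X)))
      (mem_univ u) (mem_univ v)
    linarith
  choose N hN2 hNch using fun m : ℕ => Reg.exists_chain (X := X) hN
    (show 0 < D / 2 ^ (m+1) by positivity)
  have hch : ∀ m, Reg.ChainProp X (D / 2 ^ (m+1)) (N m) := hNch
  obtain ⟨f, R, T, hf0, hf1⟩ := Reg.exists_tower (X := X) (F := ∅) (ε := fun m => D / 2 ^ m) finite_empty hN2 hch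
        (Q := univ) isPreconnected_univ (by simp) (by simpa using hDd) (mem_univ x) (mem_univ y)
        (fun m => by positivity)
  obtain ⟨l, hl⟩ := Reg.exists_lim hN2 hD0.le T
  refine ⟨l, Reg.continuous_of_mod hN2 (Reg.mod_of_lim hN2 hD0.le T hl), ?_, ?_⟩
  · symm
    apply Reg.eq_of_dist_le (D := D)
    intro m
    have h1 := hl m 0
    have h2 : Reg.stp N f m 0 = x := by
      unfold Reg.stp
      have : ⌊((0 : I) : ℝ) * Reg.grid N m⌋₊ = 0 := by simp
      rw [this]; exact hf0 m
    rwa [h2] at h1
  · symm
    apply Reg.eq_of_dist_le (D := D)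
    intro m
    have h1 := hl m 1
    have h2 : Reg.stp N f m 1 = y := by
      unfold Reg.stp
      have : ⌊((1 : I) : ℝ) * Reg.grid N m⌋₊ = Reg.grid N m := by simp
      rw [this, Reg.tower_last T m]; exact hf1
    rwa [h2] at h1

lemma null_subtype {X : Type*} [MetricSpace X] (hN : Null X) (K : Set X) : Null K := by
  intro r hr A hA hd hall
  refine hN r hr (fun n => Subtype.val '' (A n)) (fun n => ?_) ?_ (fun n => ?_)
  · exact (hA n).image _ continuous_subtype_val.continuousOn
  · intro i j hij
    exact (Set.disjoint_image_iff Subtype.val_injective).mpr (hd hij)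
  · have h := hall n
    have : Metric.diam (Subtype.val '' (A n)) = Metric.diam (A n) :=
      (isometry_subtype_coe (s := K)).diam_image (A n)
    rw [this]; exact h

theorem joined_of_J {X : Type} [MetricSpace X] [CompactSpace X] (hN : Null X) {M : Set X} {x y : X}
    (h : J M x y) : JoinedIn M x y := by
  obtain ⟨K, hKS, hKc, hKp, hxK, hyK⟩ := h
  have : CompactSpace K := isCompact_iff_compactSpace.mp hKc
  have : ConnectedSpace K := isConnected_iff_connectedSpace.mp ⟨⟨x, hxK⟩, hKp⟩
  obtain ⟨l, hl, h0, h1⟩ := exists_path (null_subtype hN K) ⟨x, hxK⟩ ⟨y, hyK⟩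
  refine ⟨⟨⟨fun t => (l t : X), continuous_subtype_val.comp hl⟩, ?_, ?_⟩, ?_⟩
  · show ((l 0 : K) : X) = x
    rw [h0]
  · show ((l 1 : K) : X) = y
    rw [h1]
  · intro t
    exact hKS (l t).2

end Pool.Agent.Helper451.Arcw
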