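import Pool.Agent.Helper451.Arcw.D2
import Pool.Agent.Helper451.Arcw.D11
import Pool.Agent.Helper451.Arcw.D12
import Pool.Agent.Helper451.Arcw.D13
import Pool.Agent.Helper451.Arcw.D14

set_option autoImplicit false
set_option linter.unusedSectionVars false
set_option linter.unusedVariables false

open Set Filter Topology

namespace Pool.Agent.Helper451.Arcw

theorem main (X : Type) [MetricSpace X] [CompactSpace X] [ConnectedSpace X]
    (h1 : ∀ ε : ℝ, 0 < ε → ∀ 𝒮 : Set (Set X), 𝒮.PairwiseDisjoint id →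
          (∀ S ∈ 𝒮, IsConnected S ∧ ε < Metric.diam S) → 𝒮.Finite)
    (h2 : ∀ (Y : Type) [TopologicalSpace Y] [T2Space Y] (f : X → Y),
          Continuous f → Function.Surjective f → (∀ y : Y, IsConnected (f ⁻¹' {y})) →
          ∃ (Z : Type) (_ : MetricSpace Z), CompactSpace Z ∧ ConnectedSpace Z ∧
            ∃ g : Y → Z, Topology.IsEmbedding g ∧
              ∃ A : ℕ → Set Z, (∀ n : ℕ, Nonempty (↥(A n) ≃ₜ unitInterval)) ∧
                (⋃ n, A n) = Set.univ)
    (S : Set X) (hS : IsConnected S) : IsPathConnected S := by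
  have hN : Null X := by
    intro r hr A hA hd hdiam
    have h3 := h1 (r / 2) (by linarith) (range A) (by
      rintro _ ⟨i, rfl⟩ _ ⟨j, rfl⟩ hij
      exact hd (fun h => hij (by rw [h]))) (by
      rintro _ ⟨i, rfl⟩
      exact ⟨hA i, by have := hdiam i; linarith⟩)
    have hinj : Function.Injective A := by
      intro i j hij
      by_contra hne
      have := hd hne
      obtain ⟨x, hx⟩ := (hA i).nonempty
      exact Set.disjoint_left.mp this hx (hij ▸ hx)
    exact (Set.infinite_range_of_injective hinj) h3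
  have hL : LC X := lc_of_rim (Reg.hard X hN)
  obtain ⟨x0, hx0⟩ := hS.nonempty
  refine ⟨x0, hx0, fun {y} hy => ?_⟩
  by_contra hno
  have hJ : ¬ J S x0 y := fun h => hno (joined_of_J hN h)
  obtain ⟨M', a, b, hbad⟩ := exists_bad hN hL hS.isPreconnected hx0 hy hJ
  obtain ⟨T⟩ := exists_tree hN hL hbad
  have hCne : ∀ s, (T.C s).Nonempty := by
    intro s
    have := T.bB (0 :: s)
    rw [T.B0] at this
    exact ⟨_, this⟩
  obtain ⟨Y, _, _, f, hf, hfs, hfc, hff, hff'⟩ := exists_quot T.C T.cC (fun s => ⟨hCne s, T.pC s⟩)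
    (fun s t h => T.disjoint_C h) (fun ε hε => T.null_C hε)
  obtain ⟨Z, _, _, _, g, hg, A, hA, hcov⟩ := h2 Y f hf hfs hfc
  refine T.no_arcs (h := g ∘ f) (hg.continuous.comp hf) ?_ ?_ hA hcov
  · intro x y hxy
    exact hff x y (hg.injective hxy)
  · intro s x hx y hy
    exact congrArg g (hff' s x hx y hy)

end Pool.Agent.Helper451.Arcw
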