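import Pool.Agent.Helper451.Arcw.D0

set_option autoImplicit false
set_option linter.unusedSectionVars false
set_option linter.unusedVariables false

open Set Filter Topology

namespace Pool.Agent.Helper451.Arcw

variable {X : Type*} [MetricSpace X]

/-- every nonempty clopen subset of `M ∩ closure V` meets the frontier -/
theorem h170_clopen {M V : Set X} (hM : IsPreconnected M) (hV : IsOpen V) (hMV : ¬ M ⊆ V)
    (S : Set (↥(M ∩ closure V))) (hS : IsClopen S)
    (hF : ∀ z ∈ S, (z : X) ∉ frontier V) : S = ∅ := by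
  by_contra hne
  obtain ⟨s0, hs0⟩ := nonempty_iff_ne_empty.2 hne
  have hSV : ∀ z ∈ S, (z : X) ∈ V := by
    intro z hz
    by_contra hzV
    apply hF z hz
    rw [hV.frontier_eq]
    exact ⟨z.2.2, hzV⟩
  obtain ⟨O1, hO1, hSO1⟩ := isOpen_induced_iff.1 hS.2
  obtain ⟨O2, hO2, hSO2⟩ := isOpen_induced_iff.1 hS.1.isOpen_compl
  have m1 : ∀ z : ↥(M ∩ closure V), z ∈ S ↔ (z : X) ∈ O1 := by
    intro z; rw [← hSO1]; rfl
  have m2 : ∀ z : ↥(M ∩ closure V), z ∉ S ↔ (z : X) ∈ O2 := by
    intro z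
    have : z ∈ Sᶜ ↔ (z : X) ∈ O2 := by rw [← hSO2]; rfl
    exact this
  obtain ⟨z0, hz0M, hz0V⟩ := not_subset.1 hMV
  have h := hM (O1 ∩ V) (O2 ∪ (closure V)ᶜ) (hO1.inter hV) (hO2.union isClosed_closure.isOpen_compl)
    (by
      intro z hz
      by_cases hc : z ∈ closure V
      · by_cases hzS : (⟨z, hz, hc⟩ : ↥(M ∩ closure V)) ∈ S
        · left
          exact ⟨(m1 ⟨z, hz, hc⟩).1 hzS, hSV _ hzS⟩
        · right; left
          exact (m2 ⟨z, hz, hc⟩).1 hzS
      · right; right; exact hc)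
    ⟨s0, s0.2.1, (m1 s0).1 hs0, hSV s0 hs0⟩
    (by
      refine ⟨z0, hz0M, ?_⟩
      by_cases hc : z0 ∈ closure V
      · left
        refine (m2 ⟨z0, hz0M, hc⟩).1 (fun hzS => hz0V (hSV _ hzS))
      · right; exact hc)
  obtain ⟨z, hzM, ⟨hz1, hzV⟩, hz2⟩ := h
  have hzc : z ∈ closure V := subset_closure hzV
  rcases hz2 with hz2 | hz2
  · exact (m2 ⟨z, hzM, hzc⟩).2 hz2 ((m1 ⟨z, hzM, hzc⟩).2 hz1)
  · exact hz2 hzc

/-- a space with finitely many clopen sets: every point has a clopen preconnected neighbourhood -/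
theorem h170_finclopen {Y : Type*} [TopologicalSpace Y] (hfin : {S : Set Y | IsClopen S}.Finite)
    (y : Y) : ∃ Q : Set Y, IsClopen Q ∧ y ∈ Q ∧ IsPreconnected Q := by
  set Q : Set Y := ⋂₀ {S : Set Y | IsClopen S ∧ y ∈ S} with hQ
  have hfin' : {S : Set Y | IsClopen S ∧ y ∈ S}.Finite := hfin.subset (fun S hS => hS.1)
  have hQc : IsClopen Q := by
    refine ⟨isClosed_sInter (fun S hS => hS.1.1), ?_⟩
    exact hfin'.isOpen_sInter (fun S hS => hS.1.2)
  have hyQ : y ∈ Q := fun S hS => hS.2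
  have hmin : ∀ S : Set Y, IsClopen S → y ∈ S → Q ⊆ S := fun S hS hy => sInter_subset_of_mem ⟨hS, hy⟩
  refine ⟨Q, hQc, hyQ, ?_⟩
  have key : ∀ u v : Set Y, IsOpen u → IsOpen v → Q ⊆ u ∪ v → (Q ∩ v).Nonempty → y ∈ u →
      (Q ∩ (u ∩ v)).Nonempty := by
    intro u v hu hv huv hnv hyu
    by_contra hc
    rw [not_nonempty_iff_eq_empty] at hc
    have hcl : IsClopen (Q ∩ u) := by
      refine ⟨?_, hQc.2.inter hu⟩
      rw [← isOpen_compl_iff]
      have : (Q ∩ u)ᶜ = Qᶜ ∪ (Q ∩ v) := by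
        ext z
        constructor
        · intro hz
          by_cases hzQ : z ∈ Q
          · right
            refine ⟨hzQ, ?_⟩
            rcases huv hzQ with h | h
            · exact absurd ⟨hzQ, h⟩ hz
            · exact h
          · left; exact hzQ
        · rintro (hz | ⟨hz1, hz2⟩) ⟨h1, h2⟩
          · exact hz h1
          · have : z ∈ Q ∩ (u ∩ v) := ⟨h1, h2, hz2⟩
            rw [hc] at this
            exact this
      rw [this]
      exact hQc.1.isOpen_compl.union (hQc.2.inter hv)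
    obtain ⟨z, hzQ, hzv⟩ := hnv
    have h2 := hmin _ hcl ⟨hyQ, hyu⟩ hzQ
    have : z ∈ Q ∩ (u ∩ v) := ⟨hzQ, h2.2, hzv⟩
    rw [hc] at this
    exact this
  intro u v hu hv huv hnu hnv
  rcases huv hyQ with h | h
  · exact key u v hu hv huv hnv h
  · rw [inter_comm u v]
    exact key v u hv hu (by rwa [union_comm]) hnu h

theorem lc_of_rim [CompactSpace X] (hR : Rim X) : LC X := by
  intro M hM O hO x hxM hxO
  obtain ⟨r, hr, hrO⟩ := Metric.nhds_basis_closedBall.mem_iff.1 (hO.mem_nhds hxO)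
  obtain ⟨V, hV, hxV, hVb, hVf⟩ := hR x (Metric.ball x r) Metric.isOpen_ball (Metric.mem_ball_self hr)
  have hcl : closure V ⊆ O :=
    (closure_minimal (hVb.trans Metric.ball_subset_closedBall) Metric.isClosed_closedBall).trans hrO
  by_cases hMV : M ⊆ V
  · refine ⟨V, hV, hxV, ?_⟩
    have : M ⊆ connectedComponentIn (M ∩ O) x :=
      hM.subset_connectedComponentIn hxM (fun z hz => ⟨hz, hcl (subset_closure (hMV hz))⟩)
    exact fun z hz => this hz.2
  · have hfin : {S : Set (↥(M ∩ closure V)) | IsClopen S}.Finite := by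
      refine Set.Finite.of_injOn (f := fun S : Set (↥(M ∩ closure V)) => (Subtype.val '' S) ∩ frontier V)
        (t := 𝒫 (frontier V)) ?_ ?_ hVf.powerset
      · intro S _
        exact inter_subset_right
      · intro S hS T hT hST
        have hST' : ∀ z : ↥(M ∩ closure V), (z : X) ∈ frontier V → (z ∈ S ↔ z ∈ T) := by
          intro z hz
          have h1 : (z : X) ∈ (Subtype.val '' S) ∩ frontier V ↔ z ∈ S := by
            constructor
            · rintro ⟨⟨z', hz', he⟩, _⟩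
              rwa [← Subtype.ext he]
            · intro h; exact ⟨⟨z, h, rfl⟩, hz⟩
          have h2 : (z : X) ∈ (Subtype.val '' T) ∩ frontier V ↔ z ∈ T := by
            constructor
            · rintro ⟨⟨z', hz', he⟩, _⟩
              rwa [← Subtype.ext he]
            · intro h; exact ⟨⟨z, h, rfl⟩, hz⟩
          rw [← h1, ← h2]
          simp only at hST
          rw [hST]
        have a1 : S \ T = ∅ := h170_clopen hM hV hMV _ (IsClopen.diff hS hT)
          (fun z hz hzf => hz.2 ((hST' z hzf).1 hz.1))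
        have a2 : T \ S = ∅ := h170_clopen hM hV hMV _ (IsClopen.diff hT hS)
          (fun z hz hzf => hz.2 ((hST' z hzf).2 hz.1))
        exact subset_antisymm (sdiff_eq_empty.1 a1) (sdiff_eq_empty.1 a2)
    have hxW : x ∈ M ∩ closure V := ⟨hxM, subset_closure hxV⟩
    obtain ⟨Q, hQ, hxQ, hQp⟩ := h170_finclopen hfin ⟨x, hxW⟩
    have hQ' : IsPreconnected (Subtype.val '' Q) := hQp.image _ continuous_subtype_val.continuousOn
    have hsub : Subtype.val '' Q ⊆ connectedComponentIn (M ∩ O) x := by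
      refine hQ'.subset_connectedComponentIn ⟨_, hxQ, rfl⟩ ?_
      rintro _ ⟨z, _, rfl⟩
      exact ⟨z.2.1, hcl z.2.2⟩
    obtain ⟨O3, hO3, hQO3⟩ := isOpen_induced_iff.1 hQ.2
    refine ⟨O3 ∩ V, hO3.inter hV, ⟨?_, hxV⟩, ?_⟩
    · rw [← hQO3] at hxQ
      exact hxQ
    · rintro z ⟨⟨hz3, hzV⟩, hzM⟩
      apply hsub
      refine ⟨⟨z, hzM, subset_closure hzV⟩, ?_, rfl⟩
      rw [← hQO3]
      exact hz3

end Pool.Agent.Helper451.Arcw
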