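import Pool.Agent.Helper451.Arcw.D1

set_option autoImplicit false
set_option linter.unusedSectionVars false
set_option linter.unusedVariables false

open Set Filter Topology

namespace Pool.Agent.Helper451.Arcw

variable {X : Type*} [MetricSpace X]

lemma side_sub (M : Set X) (e x : X) : side M e x ⊆ M \ {y | J M x y} := connectedComponentIn_subset _ _

lemma side_empty {M : Set X} {e x : X} (h : J M x e) : side M e x = ∅ :=
  connectedComponentIn_eq_empty (fun h' => h'.2 h)

lemma cls_sub {M : Set X} {e x w : X} (hw : w ∈ side M e x) : {v | J M w v} ⊆ side M e x := by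
  have hw' := side_sub M e x hw
  have h1 : side M e x = connectedComponentIn (M \ {y | J M x y}) w := connectedComponentIn_eq hw
  rw [h1]
  apply (J.preconn M w).subset_connectedComponentIn (J.refl hw'.1)
  intro v hv
  exact ⟨J.mem_right hv, fun h => hw'.2 (J.trans h hv.symm)⟩

theorem Lin.symm {M : Set X} {a b : X} (h : Lin M a b) : Lin M b a := by
  refine ⟨⟨h.1.1, h.1.2.2.1, h.1.2.1, h.1.2.2.2.1.symm, h.1.2.2.2.2.2, h.1.2.2.2.2.1⟩,
    fun m hm hmb hma ha => ?_⟩
  have h1 : side M b m = side M a m := connectedComponentIn_eq ha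
  have hb : b ∈ M \ {y | J M m y} := by
    by_contra hn
    rw [side, connectedComponentIn_eq_empty hn] at ha
    exact ha
  exact h.2 m hm hma hmb (h1 ▸ mem_connectedComponentIn hb)

theorem ro_side [CompactSpace X] (hN : Null X) (hL : LC X) {M : Set X} (hM : IsPreconnected M)
    (e x : X) : RO M (side M e x) :=
  ro_comp hL hM (RO.of_closed (fun z hz hzc => J_closed hN hz hzc)) e

theorem Lin.end_notin {M : Set X} {a b : X} (h : Lin M a b) {x : X} (hx : x ∈ M) : b ∉ side M a x := by
  intro hb
  by_cases hxa : x = a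
  · subst hxa
    rw [side_empty (J.refl hx)] at hb
    exact hb
  by_cases hxb : x = b
  · subst hxb
    exact (side_sub _ _ _ hb).2 (J.refl hx)
  exact h.2 x hx hxa hxb hb

theorem Lin.disj {M : Set X} {a b : X} (h : Lin M a b) {x : X} (hx : x ∈ M) :
    Disjoint (side M a x) (side M b x) := by
  rw [Set.disjoint_left]
  intro w h1 h2
  have e1 : side M a x = connectedComponentIn (M \ {y | J M x y}) w := connectedComponentIn_eq h1
  have e2 : side M b x = connectedComponentIn (M \ {y | J M x y}) w := connectedComponentIn_eq h2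
  have hb : b ∈ side M b x := by
    apply mem_connectedComponentIn
    by_contra hn
    rw [side, connectedComponentIn_eq_empty hn] at h2
    exact h2
  rw [e2, ← e1] at hb
  exact h.end_notin hx hb

lemma side_cls [CompactSpace X] (hN : Null X) (hL : LC X) {M : Set X} (hM : IsPreconnected M) {x : X}
    (e : X) (hx : x ∈ M) : IsPreconnected (side M e x ∪ {y | J M x y}) := by
  by_cases he : e ∈ M \ {y | J M x y}
  · obtain ⟨z, hzM, hzc, hzn⟩ := touch hL hM (RO.of_closed (K := {y | J M x y})
      (fun z hz hzc => J_closed hN hz hzc)) (fun hs => (hs hx).2 (J.refl hx)) he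
    have hzJ : J M x z := by
      by_contra hn
      exact hzn ⟨hzM, hn⟩
    have h1 : IsPreconnected (insert z (side M e x)) := by
      apply isPreconnected_connectedComponentIn.subset_closure (subset_insert _ _)
      rintro w (rfl | hw)
      · exact hzc
      · exact subset_closure hw
    have h2 := h1.union z (mem_insert _ _) hzJ (J.preconn M x)
    have h3 : insert z (side M e x) ∪ {y | J M x y} = side M e x ∪ {y | J M x y} := by
      ext w
      constructor
      · rintro ((rfl | hw) | hw)
        · exact Or.inr hzJ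
        · exact Or.inl hw
        · exact Or.inr hw
      · rintro (hw | hw)
        · exact Or.inl (Or.inr hw)
        · exact Or.inr hw
    rwa [h3] at h2
  · rw [side, connectedComponentIn_eq_empty he, empty_union]
    exact J.preconn M x

lemma end_mem {M : Set X} {e x : X} (he : e ∈ M) : e ∈ side M e x ∪ {y | J M x y} := by
  by_cases h : J M x e
  · exact Or.inr h
  · exact Or.inl (mem_connectedComponentIn ⟨he, h⟩)

lemma side_cls_sub {M : Set X} {e x : X} : side M e x ∪ {y | J M x y} ⊆ M := by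
  rintro w (hw | hw)
  · exact (side_sub _ _ _ hw).1
  · exact J.mem_right hw

theorem Lin.cover [CompactSpace X] (hN : Null X) (hL : LC X) {M : Set X} {a b : X} (h : Lin M a b)
    {x y : X} (hx : x ∈ M) (hy : y ∈ M) : y ∈ side M a x ∨ J M x y ∨ y ∈ side M b x := by
  by_contra hno
  push Not at hno
  obtain ⟨h1, h2, h3⟩ := hno
  have hyW : y ∈ M \ {z | J M x z} := ⟨hy, h2⟩
  -- the class of y misses everything
  have hK : ∀ w, J M y w → w ∉ side M a x ∧ ¬ J M x w ∧ w ∉ side M b x := by
    intro w hw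
    refine ⟨fun hc => ?_, fun hc => h2 (hc.trans hw.symm), fun hc => ?_⟩
    · exact h1 (cls_sub hc hw.symm)
    · exact h3 (cls_sub hc hw.symm)
  have hT : IsPreconnected ((side M a x ∪ {z | J M x z}) ∪ (side M b x ∪ {z | J M x z})) :=
    (side_cls hN hL h.1.1 a hx).union x (Or.inr (J.refl hx)) (Or.inr (J.refl hx))
      (side_cls hN hL h.1.1 b hx)
  have hsub : ((side M a x ∪ {z | J M x z}) ∪ (side M b x ∪ {z | J M x z})) ⊆ M \ {z | J M y z} := by
    rintro w (hw | hw)
    · refine ⟨side_cls_sub hw, fun hc => ?_⟩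
      rcases hw with hw | hw
      · exact (hK w hc).1 hw
      · exact (hK w hc).2.1 hw
    · refine ⟨side_cls_sub hw, fun hc => ?_⟩
      rcases hw with hw | hw
      · exact (hK w hc).2.2 hw
      · exact (hK w hc).2.1 hw
  have := hT.subset_connectedComponentIn (Or.inl (end_mem h.1.2.1)) hsub
    (Or.inr (end_mem h.1.2.2.1))
  exact h.end_notin hy this

theorem Lin.mono [CompactSpace X] (hN : Null X) (hL : LC X) {M : Set X} {a b : X} (h : Lin M a b)
    {x y : X} (hx : x ∈ M) (hy : y ∈ side M b x) : side M a x ∪ {z | J M x z} ⊆ side M a y := by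
  apply (side_cls hN hL h.1.1 a hx).subset_connectedComponentIn (end_mem h.1.2.1)
  intro w hw
  refine ⟨side_cls_sub hw, fun hc => ?_⟩
  have hwb := cls_sub hy hc
  rcases hw with hw | hw
  · exact Set.disjoint_left.mp (h.disj hx) hw hwb
  · exact (side_sub _ _ _ hwb).2 hw

lemma RO.inter {M A B : Set X} (hA : RO M A) (hB : RO M B) : RO M (A ∩ B) := by
  refine ⟨inter_subset_left.trans hA.1, fun z hz => ?_⟩
  obtain ⟨U, hU, hzU, h1⟩ := hA.2 z hz.1
  obtain ⟨V, hV, hzV, h2⟩ := hB.2 z hz.2
  exact ⟨U ∩ V, hU.inter hV, ⟨hzU, hzV⟩, fun w hw => ⟨h1 ⟨hw.1.1, hw.2⟩, h2 ⟨hw.1.2, hw.2⟩⟩⟩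

lemma RO.not_closure {M A D : Set X} (hA : RO M A) (hD : D ⊆ M) (hAD : Disjoint D A) {v : X}
    (hv : v ∈ A) : v ∉ closure D := by
  intro hc
  obtain ⟨U, hU, hvU, h⟩ := hA.2 v hv
  obtain ⟨w, hwU, hwD⟩ := mem_closure_iff.mp hc U hU hvU
  exact Set.disjoint_left.mp hAD hwD (h ⟨hwU, hD hwD⟩)

theorem Lin.gap_nonempty [CompactSpace X] (hN : Null X) (hL : LC X) {M : Set X} {a b : X}
    (h : Lin M a b) {x y : X} (hx : x ∈ M) (hy : y ∈ side M b x) :
    (side M b x ∩ side M a y).Nonempty := by
  have hM := h.1.1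
  have hyM : y ∈ M := (side_sub _ _ _ hy).1
  obtain ⟨O1, hO1, e1⟩ := (ro_side hN hL hM a y).open_eq
  obtain ⟨O2, hO2, e2⟩ := (ro_side hN hL hM b x).open_eq
  have hxy : x ∈ side M a y := h.mono hN hL hx hy (Or.inr (J.refl hx))
  have hcov : M ⊆ O1 ∪ O2 := by
    intro w hw
    rcases h.cover hN hL hx hw with h1 | h1 | h1
    · left
      have := h.mono hN hL hx hy (Or.inl h1)
      rw [e1] at this; exact this.2
    · left
      have := h.mono hN hL hx hy (Or.inr h1)
      rw [e1] at this; exact this.2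
    · right
      rw [e2] at h1; exact h1.2
  have hxO : x ∈ O1 := by rw [e1] at hxy; exact hxy.2
  have hyO : y ∈ O2 := by rw [e2] at hy; exact hy.2
  obtain ⟨w, hwM, hw1, hw2⟩ := hM O1 O2 hO1 hO2 hcov ⟨x, hx, hxO⟩ ⟨y, hyM, hyO⟩
  exact ⟨w, by rw [e2]; exact ⟨hwM, hw2⟩, by rw [e1]; exact ⟨hwM, hw1⟩⟩

theorem Lin.gap_conn [CompactSpace X] (hN : Null X) (hL : LC X) {M : Set X} {a b : X}
    (h : Lin M a b) {x y : X} (hx : x ∈ M) (hy : y ∈ side M b x) :
    IsPreconnected (side M b x ∩ side M a y) := by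
  have hM := h.1.1
  have hyM : y ∈ M := (side_sub _ _ _ hy).1
  have hxy : x ∈ side M a y := h.mono hN hL hx hy (Or.inr (J.refl hx))
  set G := side M b x ∩ side M a y with hG
  have hGO : RO M G := (ro_side hN hL hM b x).inter (ro_side hN hL hM a y)
  obtain ⟨z, hz⟩ := h.gap_nonempty hN hL hx hy
  set D := connectedComponentIn G z with hD
  have hDG : D ⊆ G := connectedComponentIn_subset _ _
  have hDO : RO M D := ro_comp hL hM hGO z
  have hzD : z ∈ D := mem_connectedComponentIn hz
  suffices hGD : G ⊆ D by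
    have : G = D := Subset.antisymm hGD hDG
    rw [this]
    exact isPreconnected_connectedComponentIn
  intro w hwG
  by_contra hwD
  have hwM : w ∈ M := hGO.1 hwG
  obtain ⟨v, hv1, hv2, hv3⟩ := hDO.meets (isPreconnected_connectedComponentIn (F := M \ {t | J M x t}) (x := b))
    ((connectedComponentIn_subset _ _).trans diff_subset) ⟨z, hz.1, hzD⟩
    (fun hs => (side_sub _ _ _ (hDG (hs hy)).2).2 (J.refl hyM))
  have hv1' : v ∈ side M b x := hv1
  have hvM : v ∈ M := (side_sub _ _ _ hv1').1
  have hvy : J M y v := by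
    rcases h.cover hN hL hyM hvM with h1 | h1 | h1
    · exact absurd (comp_closed_in hv2 ⟨hv1, h1⟩) hv3
    · exact h1
    · exfalso
      refine (ro_side hN hL hM b y).not_closure hDO.1 ?_ h1 hv2
      exact (h.disj hyM).mono_left (hDG.trans inter_subset_right)
  obtain ⟨u, hu1, hu2, hu3⟩ := hDO.meets (isPreconnected_connectedComponentIn (F := M \ {t | J M y t}) (x := a))
    ((connectedComponentIn_subset _ _).trans diff_subset) ⟨z, hz.2, hzD⟩
    (fun hs => (side_sub _ _ _ (hDG (hs hxy)).1).2 (J.refl hx))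
  have hu1' : u ∈ side M a y := hu1
  have huM : u ∈ M := (side_sub _ _ _ hu1').1
  have hux : J M x u := by
    rcases h.cover hN hL hx huM with h1 | h1 | h1
    · exfalso
      refine (ro_side hN hL hM a x).not_closure hDO.1 ?_ h1 hu2
      exact (h.disj hx).symm.mono_left (hDG.trans inter_subset_left)
    · exact h1
    · exact absurd (comp_closed_in hu2 ⟨h1, hu1⟩) hu3
  have hDp : IsPreconnected (insert u (insert v D)) := by
    apply isPreconnected_connectedComponentIn.subset_closure
      ((subset_insert v D).trans (subset_insert u _))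
    rintro t (rfl | rfl | ht)
    · exact hu2
    · exact hv2
    · exact subset_closure ht
  have hT : IsPreconnected (((side M a x ∪ {t | J M x t}) ∪ insert u (insert v D)) ∪
      (side M b y ∪ {t | J M y t})) :=
    ((side_cls hN hL hM a hx).union u (Or.inr hux) (mem_insert _ _) hDp).union v
      (Or.inr (Or.inr (Or.inl rfl))) (Or.inr hvy) (side_cls hN hL hM b hyM)
  have hKw : ∀ t, J M w t → t ∈ G ∧ t ∉ D := by
    intro t ht
    refine ⟨⟨cls_sub hwG.1 ht, cls_sub hwG.2 ht⟩, fun htD => ?_⟩
    have h1 : {s | J M w s} ⊆ connectedComponentIn G t := by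
      apply (J.preconn M w).subset_connectedComponentIn ht
      intro s hs
      exact ⟨cls_sub hwG.1 hs, cls_sub hwG.2 hs⟩
    have h2 : D = connectedComponentIn G t := connectedComponentIn_eq htD
    rw [← h2] at h1
    exact hwD (h1 (J.refl hwM))
  have hsub : (((side M a x ∪ {t | J M x t}) ∪ insert u (insert v D)) ∪
      (side M b y ∪ {t | J M y t})) ⊆ M \ {t | J M w t} := by
    rintro t ((ht | ht) | ht)
    · refine ⟨side_cls_sub ht, fun hc => ?_⟩
      obtain ⟨hc1, hc2⟩ := hKw t hc
      rcases ht with ht | ht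
      · exact Set.disjoint_left.mp (h.disj hx) ht hc1.1
      · exact (side_sub _ _ _ hc1.1).2 ht
    · rcases ht with rfl | rfl | ht
      · exact ⟨huM, fun hc => (side_sub _ _ _ (hKw _ hc).1.1).2 hux⟩
      · exact ⟨hvM, fun hc => (side_sub _ _ _ (hKw _ hc).1.2).2 hvy⟩
      · exact ⟨hDO.1 ht, fun hc => (hKw t hc).2 ht⟩
    · refine ⟨side_cls_sub ht, fun hc => ?_⟩
      obtain ⟨hc1, hc2⟩ := hKw t hc
      rcases ht with ht | ht
      · exact Set.disjoint_left.mp (h.disj hyM) hc1.2 ht
      · exact (side_sub _ _ _ hc1.2).2 ht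
  have := hT.subset_connectedComponentIn (Or.inl (Or.inl (end_mem h.1.2.1))) hsub
    (Or.inr (end_mem h.1.2.2.1))
  exact h.end_notin hwM this

end Pool.Agent.Helper451.Arcw
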