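import Pool.Agent.Helper451.Arcw.D4

set_option autoImplicit false
set_option linter.unusedSectionVars false
set_option linter.unusedVariables false

open Set Filter Topology

namespace Pool.Agent.Helper451.Arcw

variable {X : Type*} [MetricSpace X]

theorem Lin.limit [CompactSpace X] (hN : Null X) (hL : LC X) {M : Set X} {a b : X} (h : Lin M a b)
    {y : X} (hy : y ∈ M) (hya : y ≠ a) :
    ∃ l, J M y l ∧ ∀ ε : ℝ, 0 < ε → ∃ x ∈ side M a y, side M b x ∩ side M a y ⊆ Metric.ball l ε := by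
  have hM : IsPreconnected M := h.1.1
  have haM : a ∈ M := h.1.2.1
  have hJrefl : ∀ z ∈ M, J M z z := fun z hz =>
    ⟨{z}, by simpa using hz, isCompact_singleton, isPreconnected_singleton, rfl, rfl⟩
  have hJsymm : ∀ u v : X, J M u v → J M v u := by
    rintro u v ⟨C, h1, h2, h3, h4, h5⟩
    exact ⟨C, h1, h2, h3, h5, h4⟩
  have hnJ : ¬ J M y a := by
    intro hj
    exact hya (h.1.2.2.2.2.1 y (hJsymm _ _ hj))
  -- sides are subsets of M
  have hLM : ∀ e x : X, side M e x ⊆ M := fun e x z hz =>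
    (connectedComponentIn_subset _ _ hz).1
  -- N
  have hRO : RO M (M \ {z | J M y z}) := by
    refine ⟨diff_subset, fun z hz => ?_⟩
    have hzc : z ∉ closure {w | J M y w} := fun hc => hz.2 (J_closed hN hz.1 hc)
    refine ⟨(closure {w | J M y w})ᶜ, isClosed_closure.isOpen_compl, hzc, ?_⟩
    rintro w ⟨hw1, hw2⟩
    exact ⟨hw2, fun hj => hw1 (subset_closure hj)⟩
  have hne : ¬ M ⊆ M \ {z | J M y z} := fun hs => (hs hy).2 (hJrefl y hy)
  have haN : a ∈ M \ {z | J M y z} := ⟨haM, hnJ⟩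
  obtain ⟨l, hlM, hlc, hlN⟩ := touch hL hM hRO hne haN
  have hJl : J M y l := by
    by_contra hc
    exact hlN ⟨hlM, hc⟩
  have hlc' : l ∈ closure (side M a y) := hlc
  have haLy : a ∈ side M a y := mem_connectedComponentIn haN
  -- mirrored monotonicity
  have hmono' : ∀ {x z : X}, x ∈ M → z ∈ side M a x → side M b x ∪ {w | J M x w} ⊆ side M b z :=
    fun hx hz => Lin.mono hN hL h.symm hx hz
  have hmono : ∀ {x z : X}, x ∈ M → z ∈ side M b x → side M a x ∪ {w | J M x w} ⊆ side M a z :=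
    fun hx hz => Lin.mono hN hL h hx hz
  have hLR : ∀ {x z : X}, z ∈ M → x ∈ side M a z → z ∈ side M b x := fun hz hx =>
    hmono' hz hx (Or.inr (hJrefl _ hz))
  have hRL : ∀ {x z : X}, x ∈ M → z ∈ side M b x → x ∈ side M a z := fun hx hz =>
    hmono hx hz (Or.inr (hJrefl _ hx))
  have hRR : ∀ {x z : X}, x ∈ M → z ∈ side M b x → side M b z ⊆ side M b x := by
    intro x z hx hz w hw
    exact hmono' (hLM _ _ hz) (hRL hx hz) (Or.inl hw)
  refine ⟨l, hJl, fun ε hε => ?_⟩
  by_contra hcon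
  push Not at hcon
  -- step
  have hstep : ∀ x : X, x ∈ side M a y → ∃ x' : X, x' ∈ side M a y ∧ x' ∈ side M b x ∧
      ∃ z w : X, z ∈ side M b x ∩ side M a x' ∧ w ∈ side M b x ∩ side M a x' ∧
        ε / 2 ≤ dist z w := by
    intro x hx
    have hxM : x ∈ M := hLM _ _ hx
    obtain ⟨z, ⟨hz1, hz2⟩, hz3⟩ := Set.not_subset.mp (hcon x hx)
    have hlR : l ∈ side M b x := hmono' hy hx (Or.inr hJl)
    obtain ⟨U, hUo, hlU, hUM⟩ := (ro_side hN hL hM b x).2 l hlR
    obtain ⟨w, ⟨hwU, hwB⟩, hwL⟩ := mem_closure_iff.mp hlc' (U ∩ Metric.ball l (ε / 2))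
      (hUo.inter Metric.isOpen_ball) ⟨hlU, Metric.mem_ball_self (by positivity)⟩
    have hwR : w ∈ side M b x := hUM ⟨hwU, hLM _ _ hwL⟩
    have hzM : z ∈ M := hLM _ _ hz1
    have hwM : w ∈ M := hLM _ _ hwR
    have hdist : ε / 2 ≤ dist z w := by
      have h1 : ε ≤ dist z l := by
        rw [Metric.mem_ball, not_lt] at hz3
        exact hz3
      have h2 : dist w l < ε / 2 := hwB
      have h3 : dist z l ≤ dist z w + dist w l := dist_triangle _ _ _
      linarith
    -- the larger one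
    have key : ∃ u : X, u ∈ side M b x ∧ u ∈ side M a y ∧
        z ∈ side M a u ∪ {v | J M u v} ∧ w ∈ side M a u ∪ {v | J M u v} := by
      rcases Lin.cover hN hL h hzM hwM with hc | hc | hc
      · exact ⟨z, hz1, hz2, Or.inr (hJrefl z hzM), Or.inl hc⟩
      · exact ⟨z, hz1, hz2, Or.inr (hJrefl z hzM), Or.inr hc⟩
      · exact ⟨w, hwR, hwL, Or.inl (hRL hzM hc), Or.inr (hJrefl w hwM)⟩
    obtain ⟨u, hu1, hu2, hzu, hwu⟩ := key
    have huM : u ∈ M := hLM _ _ hu1
    obtain ⟨x', hx'1, hx'2⟩ := Lin.gap_nonempty hN hL h huM (hLR hy hu2)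
    refine ⟨x', hx'2, hRR hxM hu1 hx'1, z, w, ⟨hz1, hmono huM hx'1 hzu⟩,
      ⟨hwR, hmono huM hx'1 hwu⟩, hdist⟩
  choose! f hf1 hf2 hf3 using hstep
  let s : ℕ → X := fun n => Nat.rec a (fun _ x => f x) n
  have hs0 : s 0 = a := rfl
  have hs1 : ∀ n, s (n + 1) = f (s n) := fun n => rfl
  have hsL : ∀ n, s n ∈ side M a y := by
    intro n
    induction n with
    | zero => exact haLy
    | succ n ih => rw [hs1]; exact hf1 _ ih
  have hsR : ∀ n, s (n + 1) ∈ side M b (s n) := fun n => by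
    rw [hs1]; exact hf2 _ (hsL n)
  have hsM : ∀ n, s n ∈ M := fun n => hLM _ _ (hsL n)
  have hanti : Antitone (fun n => side M b (s n)) :=
    antitone_nat_of_succ_le (fun n => hRR (hsM n) (hsR n))
  refine hN (ε / 2) (by positivity) (fun n => side M b (s n) ∩ side M a (s (n + 1))) ?_ ?_ ?_
  · intro n
    obtain ⟨z, w, hz, hw, hd⟩ := hf3 _ (hsL n)
    refine ⟨⟨z, ?_⟩, Lin.gap_conn hN hL h (hsM n) (hsR n)⟩
    rw [hs1]; exact hz
  · have hlt : ∀ n m : ℕ, n < m → Disjoint (side M b (s n) ∩ side M a (s (n + 1)))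
        (side M b (s m) ∩ side M a (s (m + 1))) := by
      intro n m hnm
      have h1 : side M b (s m) ⊆ side M b (s (n + 1)) := hanti (Nat.succ_le_of_lt hnm)
      exact (Lin.disj h (hsM (n + 1))).mono inter_subset_right (inter_subset_left.trans h1)
    intro n m hnm
    rcases lt_or_gt_of_ne hnm with hlt' | hlt'
    · exact hlt n m hlt'
    · exact (hlt m n hlt').symm
  · intro n
    obtain ⟨z, w, hz, hw, hd⟩ := hf3 _ (hsL n)
    refine hd.trans (Metric.dist_le_diam_of_mem ?_ ?_ ?_)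
    · exact (isCompact_univ.isBounded).subset (subset_univ _)
    · rw [hs1]; exact hz
    · rw [hs1]; exact hw

end Pool.Agent.Helper451.Arcw
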