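import Pool.Agent.Helper451.Arcw.D4

set_option autoImplicit false
set_option linter.unusedSectionVars false
set_option linter.unusedVariables false

open Set Filter Topology

namespace Pool.Agent.Helper451.Arcw

variable {X : Type*} [MetricSpace X]

theorem J_self9 {M : Set X} {x : X} (hx : x ∈ M) : J M x x :=
  ⟨{x}, Set.singleton_subset_iff.2 hx, isCompact_singleton, isPreconnected_singleton,
    rfl, rfl⟩

theorem Lin.complete [CompactSpace X] (hN : Null X) (hL : LC X) {M : Set X} {a b : X} (h : Lin M a b)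
    {S : Set X} (hSM : S ⊆ M) (haS : a ∈ S) (hbS : b ∉ S)
    (hdown : ∀ y ∈ S, side M a y ∪ {z | J M y z} ⊆ S) :
    ∃ y ∈ M, side M a y ⊆ S ∧ Disjoint (side M b y) S := by
  have hM : IsPreconnected M := h.1.1
  have haM : a ∈ M := h.1.2.1
  have hbM : b ∈ M := h.1.2.2.1
  by_cases hro : ∀ y ∈ S, ∃ U : Set X, IsOpen U ∧ y ∈ U ∧ U ∩ M ⊆ S
  · have hex : ∃ y ∈ M, y ∉ S ∧ ∀ U : Set X, IsOpen U → y ∈ U → ¬ (U ∩ M ⊆ M \ S) := by
      by_contra hcon
      have hco : ∀ y ∈ M, y ∉ S → ∃ U : Set X, IsOpen U ∧ y ∈ U ∧ U ∩ M ⊆ M \ S := by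
        intro y hy hyS
        by_contra hc
        apply hcon
        refine ⟨y, hy, hyS, ?_⟩
        intro U hU hyU hUS
        exact hc ⟨U, hU, hyU, hUS⟩
      have hO1 : IsOpen (⋃₀ {U : Set X | IsOpen U ∧ U ∩ M ⊆ S}) :=
        isOpen_sUnion (fun U hU => hU.1)
      have hO2 : IsOpen (⋃₀ {U : Set X | IsOpen U ∧ U ∩ M ⊆ M \ S}) :=
        isOpen_sUnion (fun U hU => hU.1)
      have key := hM _ _ hO1 hO2 (by
        intro z hz
        by_cases hzS : z ∈ S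
        · obtain ⟨U, h1, h2, h3⟩ := hro z hzS
          exact Or.inl ⟨U, ⟨h1, h3⟩, h2⟩
        · obtain ⟨U, h1, h2, h3⟩ := hco z hz hzS
          exact Or.inr ⟨U, ⟨h1, h3⟩, h2⟩)
        (by
          obtain ⟨U, h1, h2, h3⟩ := hro a haS
          exact ⟨a, haM, U, ⟨h1, h3⟩, h2⟩)
        (by
          obtain ⟨U, h1, h2, h3⟩ := hco b hbM hbS
          exact ⟨b, hbM, U, ⟨h1, h3⟩, h2⟩)
      obtain ⟨z, hzM, ⟨U, hU, hzU⟩, ⟨V, hV, hzV⟩⟩ := key
      exact (hV.2 ⟨hzV, hzM⟩).2 (hU.2 ⟨hzU, hzM⟩)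
    obtain ⟨y, hyM, hyS, hyU⟩ := hex
    have hfirst : ∀ x ∈ M, x ∉ S → Disjoint (side M b x) S := by
      intro x hx hxS
      rw [Set.disjoint_left]
      intro w hw hwS
      have h1 : x ∈ side M a w := Lin.mono hN hL h hx hw (Or.inr (J_self9 hx))
      exact hxS (hdown w hwS (Or.inl h1))
    refine ⟨y, hyM, ?_, hfirst y hyM hyS⟩
    intro x hx
    by_contra hxS
    have hxM : x ∈ M := (ro_side hN hL hM a y).1 hx
    have h1 : y ∈ side M b x := Lin.mono hN hL h.symm hyM hx (Or.inr (J_self9 hyM))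
    obtain ⟨U, hU, hyU', hUM⟩ := (ro_side hN hL hM b x).2 y h1
    apply hyU U hU hyU'
    intro z hz
    exact ⟨hz.2, fun hzS => Set.disjoint_left.1 (hfirst x hxM hxS) (hUM hz) hzS⟩
  · have hex : ∃ y ∈ S, ∀ U : Set X, IsOpen U → y ∈ U → ¬ (U ∩ M ⊆ S) := by
      by_contra hcon
      apply hro
      intro y hy
      by_contra hc
      apply hcon
      refine ⟨y, hy, ?_⟩
      intro U hU hyU hUS
      exact hc ⟨U, hU, hyU, hUS⟩
    obtain ⟨y, hyS, hyU⟩ := hex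
    have hyM : y ∈ M := hSM hyS
    refine ⟨y, hyM, fun z hz => hdown y hyS (Or.inl hz), ?_⟩
    rw [Set.disjoint_left]
    intro x hx hxS
    have h1 : y ∈ side M a x := Lin.mono hN hL h hyM hx (Or.inr (J_self9 hyM))
    obtain ⟨U, hU, hyU', hUM⟩ := (ro_side hN hL hM a x).2 y h1
    exact hyU U hU hyU' (fun z hz => hdown x hxS (Or.inl (hUM hz)))

theorem Lin.induct [CompactSpace X] (hN : Null X) (hL : LC X) {M : Set X} {a b : X} (h : Lin M a b)
    {S : Set X} (hSM : S ⊆ M) (haS : a ∈ S)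
    (hdown : ∀ y ∈ S, side M a y ∪ {z | J M y z} ⊆ S)
    (hlim : ∀ y ∈ M, y ≠ a → side M a y ⊆ S → y ∈ S)
    (hsucc : ∀ y ∈ S, y ≠ b → ∃ x ∈ side M b y, x ∈ S) : b ∈ S := by
  by_contra hb
  obtain ⟨y, hyM, h1, h2⟩ := Lin.complete hN hL h hSM haS hb hdown
  have hyS : y ∈ S := by
    by_cases hya : y = a
    · rw [hya]
      exact haS
    · exact hlim y hyM hya h1
  have hyb : y ≠ b := by
    rintro rfl
    exact hb hyS
  obtain ⟨x, hx, hxS⟩ := hsucc y hyS hyb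
  exact Set.disjoint_left.1 h2 hx hxS

end Pool.Agent.Helper451.Arcw
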