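import Pool.Agent.Helper451.Arcw.D5
import Pool.Agent.Helper451.Arcw.D6

set_option autoImplicit false
set_option linter.unusedSectionVars false
set_option linter.unusedVariables false

open Set Filter Topology

namespace Pool.Agent.Helper451.Arcw

variable {X : Type*} [MetricSpace X]

lemma J.symm' {M : Set X} {x y : X} (h : J M x y) : J M y x := by
  obtain ⟨C, h1, h2, h3, h4, h5⟩ := h
  exact ⟨C, h1, h2, h3, h5, h4⟩

lemma J.trans' {M : Set X} {x y z : X} (h : J M x y) (h' : J M y z) : J M x z := by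
  obtain ⟨C, h1, h2, h3, h4, h5⟩ := h
  obtain ⟨D, g1, g2, g3, g4, g5⟩ := h'
  exact ⟨C ∪ D, union_subset h1 g1, h2.union g2, h3.union y h5 g4 g3, Or.inl h4, Or.inr g5⟩

lemma J.self' {M : Set X} {x : X} (h : x ∈ M) : J M x x :=
  ⟨{x}, singleton_subset_iff.2 h, isCompact_singleton, isPreconnected_singleton, rfl, rfl⟩

lemma J.mem_right' {M : Set X} {x y : X} (h : J M x y) : y ∈ M := by
  obtain ⟨C, h1, h2, h3, h4, h5⟩ := h
  exact h1 h5

lemma J.cls {M : Set X} {x y : X} (h : J M x y) : {z | J M x z} = {z | J M y z} := by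
  ext z
  exact ⟨fun hz => h.symm'.trans' hz, fun hz => h.trans' hz⟩

lemma side_congr {M : Set X} {x y : X} (h : {z | J M x z} = {z | J M y z}) (e : X) :
    side M e x = side M e y := by
  unfold side; rw [h]

lemma side_subM {M : Set X} {e x : X} : side M e x ⊆ M :=
  (connectedComponentIn_subset _ _).trans sdiff_subset

lemma side_self {M : Set X} {e : X} (he : e ∈ M) : side M e e = ∅ := by
  unfold side
  apply connectedComponentIn_eq_empty
  rintro ⟨_, h⟩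
  exact h (J.self' he)

lemma Lin.g1 [CompactSpace X] (hN : Null X) (hL : LC X) {M : Set X} {a b : X} (h : Lin M a b)
    {x y : X} (hx : x ∈ M) (hy : y ∈ side M b x) : x ∈ side M a y :=
  Lin.mono hN hL h hx hy (Or.inr (J.self' hx))

lemma Lin.g3 [CompactSpace X] (hN : Null X) (hL : LC X) {M : Set X} {a b : X} (h : Lin M a b)
    {x y : X} (hx : x ∈ M) (hy : y ∈ side M b x) : side M b y ∪ {z | J M y z} ⊆ side M b x :=
  Lin.mono hN hL h.symm (side_subM hy) (Lin.g1 hN hL h hx hy)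

/-- the good piece of a class -/
def Q (M : Set X) (a b y : X) (C : Set X) : Prop :=
  C ⊆ {z | J M y z} ∧ IsCompact C ∧ IsPreconnected C ∧ C.Nonempty ∧
  (y ≠ a → ∃ l ∈ C, ∀ ε : ℝ, 0 < ε → ∃ x ∈ side M a y, side M b x ∩ side M a y ⊆ Metric.ball l ε) ∧
  (y ≠ b → ∃ r ∈ C, ∀ ε : ℝ, 0 < ε → ∃ x ∈ side M b y, side M a x ∩ side M b y ⊆ Metric.ball r ε)

lemma exists_Q [CompactSpace X] (hN : Null X) (hL : LC X) {M : Set X} {a b : X} (h : Lin M a b)
    {y : X} (hy : y ∈ M) : ∃ C, Q M a b y C := by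
  obtain ⟨l, hl, hl2⟩ : ∃ l, J M y l ∧ (y ≠ a → ∀ ε : ℝ, 0 < ε →
      ∃ x ∈ side M a y, side M b x ∩ side M a y ⊆ Metric.ball l ε) := by
    by_cases hya : y = a
    · exact ⟨y, J.self' hy, fun h' => absurd hya h'⟩
    · obtain ⟨l, h1, h2⟩ := Lin.limit hN hL h hy hya
      exact ⟨l, h1, fun _ => h2⟩
  obtain ⟨r, hr, hr2⟩ : ∃ r, J M y r ∧ (y ≠ b → ∀ ε : ℝ, 0 < ε →
      ∃ x ∈ side M b y, side M a x ∩ side M b y ⊆ Metric.ball r ε) := by
    by_cases hyb : y = b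
    · exact ⟨y, J.self' hy, fun h' => absurd hyb h'⟩
    · obtain ⟨l, h1, h2⟩ := Lin.limit hN hL h.symm hy hyb
      exact ⟨l, h1, fun _ => h2⟩
  obtain ⟨C, h1, h2, h3, h4, h5⟩ := hl.symm'.trans' hr
  refine ⟨C, ?_, h2, h3, ⟨l, h4⟩, fun hya => ⟨l, h4, hl2 hya⟩, fun hyb => ⟨r, h5, hr2 hyb⟩⟩
  intro c hc
  exact hl.trans' ⟨C, h1, h2, h3, h4, hc⟩

lemma Q_congr {M : Set X} {a b : X} (hab : Bad M a b)
    {y y' : X} (hy : y ∈ M) (hy' : y' ∈ M) (he : {z | J M y z} = {z | J M y' z}) {C : Set X}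
    (hQ : Q M a b y C) : Q M a b y' C := by
  obtain ⟨h1, h2, h3, h4, h5, h6⟩ := hQ
  have hJ : J M y y' := by
    have : y' ∈ {z | J M y' z} := J.self' hy'
    rw [← he] at this; exact this
  refine ⟨by rw [← he]; exact h1, h2, h3, h4, ?_, ?_⟩
  · intro hne
    rw [← side_congr he]
    apply h5
    rintro rfl
    exact hne (hab.2.2.2.2.1 _ hJ)
  · intro hne
    rw [← side_congr he]
    apply h6
    rintro rfl
    exact hne (hab.2.2.2.2.2 _ hJ)

lemma exists_Cc [CompactSpace X] (hN : Null X) (hL : LC X) {M : Set X} {a b : X} (h : Lin M a b) :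
    ∃ Cc : Set X → Set X, ∀ y ∈ M, Q M a b y (Cc {z | J M y z}) := by
  have : ∀ K : Set X, ∃ C, ∀ y ∈ M, K = {z | J M y z} → Q M a b y C := by
    intro K
    by_cases hK : ∃ y ∈ M, K = {z | J M y z}
    · obtain ⟨y, hy, rfl⟩ := hK
      obtain ⟨C, hC⟩ := exists_Q hN hL h hy
      exact ⟨C, fun y' hy' he => Q_congr h.1 hy hy' he hC⟩
    · exact ⟨∅, fun y hy he => absurd ⟨y, hy, he⟩ hK⟩
  choose Cc hCc using this
  exact ⟨Cc, fun y hy => hCc _ y hy rfl⟩

theorem Lin.joined [CompactSpace X] (hN : Null X) (hL : LC X) {M : Set X} {a b : X} (h : Lin M a b) :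
    J M a b := by
  classical
  obtain ⟨Cc, hCc⟩ := exists_Cc hN hL h
  have haM : a ∈ M := h.1.2.1
  have hbM : b ∈ M := h.1.2.2.1
  have hKa : ∀ z, J M a z → z = a := h.1.2.2.2.2.1
  have hKb : ∀ z, J M b z → z = b := h.1.2.2.2.2.2
  set L : Set X := ⋃ y ∈ M, Cc {z | J M y z} with hLdef
  have hL1 : ∀ y ∈ M, Cc {z | J M y z} ⊆ L := fun y hy => subset_biUnion_of_mem (u := fun y => Cc {z | J M y z}) hy
  have hL2 : ∀ y ∈ M, ∀ z ∈ L, J M y z → z ∈ Cc {z | J M y z} := by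
    intro y hy z hz hJ
    obtain ⟨y', hy', hz'⟩ := mem_iUnion₂.1 hz
    have h1 : J M y' z := (hCc y' hy').1 hz'
    have h2 : J M y y' := hJ.trans' h1.symm'
    rw [h2.cls]; exact hz'
  have hLM : L ⊆ M := by
    intro z hz
    obtain ⟨y', hy', hz'⟩ := mem_iUnion₂.1 hz
    exact J.mem_right' ((hCc y' hy').1 hz')
  have haL : a ∈ L := by
    obtain ⟨c, hc⟩ := (hCc a haM).2.2.2.1
    have : c = a := hKa c ((hCc a haM).1 hc)
    rw [← this]; exact hL1 a haM hc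
  have hbL : b ∈ L := by
    obtain ⟨c, hc⟩ := (hCc b hbM).2.2.2.1
    have : c = b := hKb c ((hCc b hbM).1 hc)
    rw [← this]; exact hL1 b hbM hc
  have hfull : L ⊆ L ∩ (side M a b ∪ {z | J M b z}) := by
    intro z hz
    refine ⟨hz, ?_⟩
    rcases Lin.cover hN hL h hbM (hLM hz) with h1 | h1 | h1
    · exact Or.inl h1
    · exact Or.inr h1
    · rw [side_self hbM] at h1; exact absurd h1 (notMem_empty _)
  -- the initial segments grow
  have hseg : ∀ y ∈ M, ∀ z ∈ side M a y ∪ {z | J M y z},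
      side M a z ∪ {w | J M z w} ⊆ side M a y ∪ {w | J M y w} := by
    rintro y hy z (hz | hz)
    · exact (Lin.g3 hN hL h.symm hy hz).trans subset_union_left
    · have hz' : J M y z := hz
      rw [hz'.cls, side_congr hz'.cls]
  have hsegM : ∀ y ∈ M, side M a y ∪ {z | J M y z} ⊆ M := by
    rintro y hy z (hz | hz)
    · exact side_subM hz
    · exact J.mem_right' hz
  -- the limit step
  have hlimcov : ∀ y ∈ M, ∀ x ∈ side M a y, L ∩ (side M a y ∪ {z | J M y z}) ⊆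
      (L ∩ (side M a x ∪ {z | J M x z})) ∪ (side M b x ∩ side M a y) ∪ Cc {z | J M y z} := by
    rintro y hy x hx z ⟨hzL, hz | hz⟩
    · rcases Lin.cover hN hL h (side_subM hx) (hLM hzL) with h1 | h1 | h1
      · exact Or.inl (Or.inl ⟨hzL, Or.inl h1⟩)
      · exact Or.inl (Or.inl ⟨hzL, Or.inr h1⟩)
      · exact Or.inl (Or.inr ⟨h1, hz⟩)
    · exact Or.inr (hL2 y hy z hzL hz)
  have hsucccov : ∀ y ∈ M, ∀ x ∈ side M b y, ∀ x' ∈ side M b y ∩ side M a x,
      L ∩ (side M a x' ∪ {z | J M x' z}) ⊆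
      (L ∩ (side M a y ∪ {z | J M y z})) ∪ (side M a x ∩ side M b y) := by
    rintro y hy x hx x' ⟨hx'1, hx'2⟩ z ⟨hzL, hz⟩
    have hz' : z ∈ side M a x := Lin.g3 hN hL h.symm (side_subM hx) hx'2 hz
    rcases Lin.cover hN hL h hy (hLM hzL) with h1 | h1 | h1
    · exact Or.inl ⟨hzL, Or.inl h1⟩
    · exact Or.inl ⟨hzL, Or.inr h1⟩
    · exact Or.inr ⟨hz', h1⟩
  have hcomp : IsCompact L := by
    apply isCompact_of_finite_subcover
    intro ι U hUo hUL
    have hmono : ∀ A B : Set X, A ⊆ B → (∃ t : Finset ι, B ⊆ ⋃ i ∈ t, U i) →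
        ∃ t : Finset ι, A ⊆ ⋃ i ∈ t, U i := by
      rintro A B hAB ⟨t, ht⟩; exact ⟨t, hAB.trans ht⟩
    have hunion : ∀ A B : Set X, (∃ t : Finset ι, A ⊆ ⋃ i ∈ t, U i) →
        (∃ t : Finset ι, B ⊆ ⋃ i ∈ t, U i) → ∃ t : Finset ι, A ∪ B ⊆ ⋃ i ∈ t, U i := by
      rintro A B ⟨t, ht⟩ ⟨t', ht'⟩
      refine ⟨t ∪ t', union_subset (ht.trans ?_) (ht'.trans ?_)⟩
      · exact biUnion_subset_biUnion_left fun i hi => Finset.mem_union_left _ hi
      · exact biUnion_subset_biUnion_left fun i hi => Finset.mem_union_right _ hi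
    have hCcf : ∀ y ∈ M, ∃ t : Finset ι, Cc {z | J M y z} ⊆ ⋃ i ∈ t, U i := by
      intro y hy
      exact (hCc y hy).2.1.elim_finite_subcover U hUo ((hL1 y hy).trans hUL)
    have hone : ∀ i, ∃ t : Finset ι, U i ⊆ ⋃ i ∈ t, U i := by
      intro i
      refine ⟨{i}, ?_⟩
      intro z hz
      simp only [Finset.mem_singleton, iUnion_iUnion_eq_left]
      exact hz
    have hb : b ∈ {y | y ∈ M ∧ ∃ t : Finset ι, L ∩ (side M a y ∪ {z | J M y z}) ⊆ ⋃ i ∈ t, U i} := by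
      apply Lin.induct hN hL h
      · rintro y ⟨hy, _⟩; exact hy
      · refine ⟨haM, hmono _ _ ?_ (hCcf a haM)⟩
        rintro z ⟨hzL, hz | hz⟩
        · rw [side_self haM] at hz; exact absurd hz (notMem_empty _)
        · exact hL2 a haM z hzL hz
      · rintro y ⟨hy, ht⟩ z hz
        exact ⟨hsegM y hy hz, hmono _ _ (inter_subset_inter_right _ (hseg y hy z hz)) ht⟩
      · intro y hy hya hside
        obtain ⟨l, hl, hl2⟩ := (hCc y hy).2.2.2.2.1 hya
        obtain ⟨i, hi⟩ := mem_iUnion.1 (hUL (hL1 y hy hl))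
        obtain ⟨ε, hε, hball⟩ := Metric.isOpen_iff.1 (hUo i) l hi
        obtain ⟨x, hx, hgap⟩ := hl2 ε hε
        refine ⟨hy, hmono _ _ (hlimcov y hy x hx) ?_⟩
        apply hunion _ _ _ (hCcf y hy)
        exact hunion _ _ (hside hx).2 (hmono _ _ (hgap.trans hball) (hone i))
      · rintro y ⟨hy, ht⟩ hyb
        obtain ⟨r, hr, hr2⟩ := (hCc y hy).2.2.2.2.2 hyb
        obtain ⟨i, hi⟩ := mem_iUnion.1 (hUL (hL1 y hy hr))
        obtain ⟨ε, hε, hball⟩ := Metric.isOpen_iff.1 (hUo i) r hi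
        obtain ⟨x, hx, hgap⟩ := hr2 ε hε
        obtain ⟨x', hx'⟩ := Lin.gap_nonempty hN hL h hy hx
        refine ⟨x', hx'.1, side_subM hx'.1, hmono _ _ (hsucccov y hy x hx x' hx') ?_⟩
        exact hunion _ _ ht (hmono _ _ (hgap.trans hball) (hone i))
    exact hmono _ _ hfull hb.2
  have hkey : ∀ U V : Set X, IsOpen U → IsOpen V → L ⊆ U ∪ V → ¬ (L ∩ (U ∩ V)).Nonempty →
      a ∈ U → L ⊆ U := by
    intro U V hUo hVo hUV hno haU
    have hb : b ∈ {y | y ∈ M ∧ L ∩ (side M a y ∪ {z | J M y z}) ⊆ U} := by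
      apply Lin.induct hN hL h
      · rintro y ⟨hy, _⟩; exact hy
      · refine ⟨haM, ?_⟩
        rintro z ⟨hzL, hz | hz⟩
        · rw [side_self haM] at hz; exact absurd hz (notMem_empty _)
        · rw [hKa z hz]; exact haU
      · rintro y ⟨hy, ht⟩ z hz
        exact ⟨hsegM y hy hz, (inter_subset_inter_right _ (hseg y hy z hz)).trans ht⟩
      · intro y hy hya hside
        refine ⟨hy, ?_⟩
        obtain ⟨l, hl, hl2⟩ := (hCc y hy).2.2.2.2.1 hya
        have hlL : l ∈ L := hL1 y hy hl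
        have hlU : l ∈ U := by
          rcases hUV hlL with h1 | h1
          · exact h1
          exfalso
          obtain ⟨ε, hε, hball⟩ := Metric.isOpen_iff.1 hVo l h1
          obtain ⟨x, hx, hgap⟩ := hl2 ε hε
          have hxM : x ∈ M := side_subM hx
          have hyx : y ∈ side M b x := Lin.g1 hN hL h.symm hy hx
          obtain ⟨x', hx'1, hx'2⟩ := Lin.gap_nonempty hN hL h hxM hyx
          have hx'M : x' ∈ M := side_subM hx'1
          obtain ⟨c, hc⟩ := (hCc x' hx'M).2.2.2.1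
          have hcK : J M x' c := (hCc x' hx'M).1 hc
          have hcL : c ∈ L := hL1 x' hx'M hc
          have hc1 : c ∈ side M b x := Lin.g3 hN hL h hxM hx'1 (Or.inr hcK)
          have hc2 : c ∈ side M a y := Lin.g3 hN hL h.symm hy hx'2 (Or.inr hcK)
          exact hno ⟨c, hcL, (hside hx'2).2 ⟨hcL, Or.inr hcK⟩, hball (hgap ⟨hc1, hc2⟩)⟩
        rintro z ⟨hzL, hz | hz⟩
        · exact (hside hz).2 ⟨hzL, Or.inr (J.self' (side_subM hz))⟩
        · have hzC := hL2 y hy z hzL hz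
          rcases hUV hzL with h1 | h1
          · exact h1
          exfalso
          obtain ⟨w, hw1, hw2⟩ := (hCc y hy).2.2.1 U V hUo hVo ((hL1 y hy).trans hUV)
            ⟨l, hl, hlU⟩ ⟨z, hzC, h1⟩
          exact hno ⟨w, hL1 y hy hw1, hw2⟩
      · rintro y ⟨hy, ht⟩ hyb
        obtain ⟨r, hr, hr2⟩ := (hCc y hy).2.2.2.2.2 hyb
        have hrU : r ∈ U := ht ⟨hL1 y hy hr, Or.inr ((hCc y hy).1 hr)⟩
        obtain ⟨ε, hε, hball⟩ := Metric.isOpen_iff.1 hUo r hrU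
        obtain ⟨x, hx, hgap⟩ := hr2 ε hε
        obtain ⟨x', hx'⟩ := Lin.gap_nonempty hN hL h hy hx
        refine ⟨x', hx'.1, side_subM hx'.1, (hsucccov y hy x hx x' hx').trans ?_⟩
        exact union_subset ht (hgap.trans hball)
    exact hfull.trans hb.2
  have hpre : IsPreconnected L := by
    rintro U V hUo hVo hUV ⟨u, huL, hu⟩ ⟨v, hvL, hv⟩
    by_contra hno
    rcases hUV haL with h1 | h1
    · exact hno ⟨v, hvL, hkey U V hUo hVo hUV hno h1 hvL, hv⟩
    · have hno' : ¬ (L ∩ (V ∩ U)).Nonempty := by rwa [inter_comm V U]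
      exact hno ⟨u, huL, hu, hkey V U hVo hUo (by rwa [union_comm]) hno' h1 huL⟩
  exact ⟨L, hLM, hcomp, hpre, haL, hbL⟩

theorem nonlinear [CompactSpace X] (hN : Null X) (hL : LC X) {M : Set X} {a b : X} (h : Bad M a b) :
    ∃ m ∈ M, m ≠ a ∧ m ≠ b ∧ b ∈ connectedComponentIn (M \ {y | J M m y}) a := by
  by_contra hno
  push Not at hno
  have hlin : Lin M a b := ⟨h, fun m hm h1 h2 => hno m hm h1 h2⟩
  exact h.2.2.2.1 (h.2.2.2.2.1 b (hlin.joined hN hL)).symm

end Pool.Agent.Helper451.Arcw
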