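import Pool.Agent.Helper451.Arcw.D7

set_option autoImplicit false
set_option linter.unusedSectionVars false
set_option linter.unusedVariables false

open Set Filter Topology

namespace Pool.Agent.Helper451.Arcw

variable {X : Type*} [MetricSpace X]

theorem J.symmT {M : Set X} {x y : X} (h : J M x y) : J M y x := by
  obtain ⟨C, h1, h2, h3, h4, h5⟩ := h
  exact ⟨C, h1, h2, h3, h5, h4⟩

theorem J.transT {M : Set X} {x y z : X} (h : J M x y) (h' : J M y z) : J M x z := by
  obtain ⟨C, h1, h2, h3, h4, h5⟩ := h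
  obtain ⟨D, k1, k2, k3, k4, k5⟩ := h'
  exact ⟨C ∪ D, union_subset h1 k1, h2.union k2, h3.union y h5 k4 k3, Or.inl h4, Or.inr k5⟩

theorem J.monoT {M N : Set X} {x y : X} (hMN : M ⊆ N) (h : J M x y) : J N x y := by
  obtain ⟨C, h1, h2, h3, h4, h5⟩ := h
  exact ⟨C, h1.trans hMN, h2, h3, h4, h5⟩

theorem J_refl' {M : Set X} {x : X} (h : x ∈ M) : J M x x :=
  ⟨{x}, by simpa using h, isCompact_singleton, isPreconnected_singleton, rfl, rfl⟩

theorem comp_closed_in' {W : Set X} {x z : X} (hz : z ∈ closure (connectedComponentIn W x))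
    (hzW : z ∈ W) : z ∈ connectedComponentIn W x := by
  by_cases hx : x ∈ W
  · have h1 : IsPreconnected (connectedComponentIn W x ∪ {z}) := by
      apply isPreconnected_connectedComponentIn.subset_closure (t := connectedComponentIn W x ∪ {z})
        subset_union_left
      rintro y (hy | hy)
      · exact subset_closure hy
      · rw [mem_singleton_iff] at hy; rw [hy]; exact hz
    have h2 := h1.subset_connectedComponentIn (x := x) (F := W)
      (Or.inl (mem_connectedComponentIn hx)) (by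
        rintro y (hy | hy)
        · exact connectedComponentIn_subset _ _ hy
        · rw [mem_singleton_iff] at hy; rw [hy]; exact hzW)
    exact h2 (Or.inr rfl)
  · rw [connectedComponentIn_eq_empty hx] at hz; simp at hz

theorem RO.trans' {A B C : Set X} (h1 : RO B C) (h2 : RO A B) : RO A C := by
  refine ⟨h1.1.trans h2.1, fun z hz => ?_⟩
  obtain ⟨U, hU, hzU, hUC⟩ := h1.2 z hz
  obtain ⟨V, hV, hzV, hVB⟩ := h2.2 z (h1.1 hz)
  exact ⟨U ∩ V, hU.inter hV, ⟨hzU, hzV⟩, fun w hw => hUC ⟨hw.1.1, hVB ⟨hw.1.2, hw.2⟩⟩⟩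

theorem RO_minus_closed {M K : Set X} (h : ∀ z ∈ M, z ∈ closure K → z ∈ K) : RO M (M \ K) := by
  refine ⟨fun w hw => hw.1, fun z hz => ⟨(closure K)ᶜ, isClosed_closure.isOpen_compl, ?_, ?_⟩⟩
  · intro hzK; exact hz.2 (h z hz.1 hzK)
  · rintro w ⟨hw1, hw2⟩; exact ⟨hw2, fun hwK => hw1 (subset_closure hwK)⟩

/- a relatively open nonempty proper subset of a connected set has a relative boundary point -/
theorem RO_bdry {M E G : Set X} (hE : IsPreconnected E) (hEM : E ⊆ M) (hG : RO M G) (hGE : G ⊆ E)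
    (hne : G.Nonempty) {m : X} (hm : m ∈ E) (hmG : m ∉ G) :
    ∃ z ∈ E, z ∈ closure G ∧ z ∉ G := by
  by_contra hno
  push Not at hno
  obtain ⟨g, hg⟩ := hne
  choose! U hU hzU hUG using hG.2
  have := hE (⋃ z ∈ G, U z) (closure G)ᶜ (isOpen_biUnion fun z hz => hU z hz)
    isClosed_closure.isOpen_compl (by
      intro z hz
      by_cases h1 : z ∈ closure G
      · left
        have h2 := hno z hz h1
        exact mem_biUnion h2 (hzU z h2)
      · exact Or.inr h1) ⟨g, hGE hg, mem_biUnion hg (hzU g hg)⟩ ⟨m, hm, fun hc => hmG (hno m hm hc)⟩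
  obtain ⟨w, hwE, hw1, hw2⟩ := this
  rw [mem_iUnion₂] at hw1
  obtain ⟨z, hz, hwz⟩ := hw1
  exact hw2 (subset_closure (hUG z hz ⟨hwz, hEM hwE⟩))

theorem exists_tri [CompactSpace X] (hN : Null X) (hL : LC X) {M : Set X} {a b : X} (h : Bad M a b) :
    ∃ (G : Set X) (m : X), G ⊆ M ∧ m ∈ M ∧ Tri G a b m := by
  classical
  obtain ⟨hM, haM, hbM, hab, hJa, hJb⟩ := h
  -- Step 1
  have hsing : ∀ (N : Set X) (c : X), ∀ z ∈ N, z ∈ closure ({c} : Set X) → z ∈ ({c} : Set X) := by
    intro N c z _ hz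
    rwa [isClosed_singleton.closure_eq] at hz
  have hdab : Disjoint ({a} : Set X) {b} := by
    rw [disjoint_singleton]; exact hab
  obtain ⟨v, hv, hva, hvb⟩ := bridge hL hM (P := {a}) (Q := {b}) (by simpa using haM)
    (by simpa using hbM) (hsing M a) (hsing M b) hdab (singleton_nonempty a) (singleton_nonempty b)
  set E1 : Set X := connectedComponentIn (M \ ({a} ∪ {b})) v with hE1
  have haE1 : a ∈ closure E1 := by
    obtain ⟨w, hw1, hw2⟩ := hva
    rw [mem_singleton_iff] at hw1; rwa [hw1] at hw2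
  have hbE1 : b ∈ closure E1 := by
    obtain ⟨w, hw1, hw2⟩ := hvb
    rw [mem_singleton_iff] at hw1; rwa [hw1] at hw2
  have hE1p : IsPreconnected E1 := isPreconnected_connectedComponentIn
  have hE1M : E1 ⊆ M \ ({a} ∪ {b}) := connectedComponentIn_subset _ _
  set M1 : Set X := insert a (insert b E1) with hM1
  have hE1M1 : E1 ⊆ M1 := fun w hw => Or.inr (Or.inr hw)
  have hM1p : IsPreconnected M1 := by
    apply hE1p.subset_closure hE1M1
    rintro w (hw | hw | hw)
    · rw [hw]; exact haE1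
    · rw [hw]; exact hbE1
    · exact subset_closure hw
  have hM1M : M1 ⊆ M := by
    rintro w (hw | hw | hw)
    · rw [hw]; exact haM
    · rw [hw]; exact hbM
    · exact (hE1M hw).1
  have haM1 : a ∈ M1 := Or.inl rfl
  have hbM1 : b ∈ M1 := Or.inr (Or.inl rfl)
  have hJa1 : ∀ y, J M1 a y → y = a := fun y hy => hJa y (hy.monoT hM1M)
  have hJb1 : ∀ y, J M1 b y → y = b := fun y hy => hJb y (hy.monoT hM1M)
  have hbad1 : Bad M1 a b := ⟨hM1p, haM1, hbM1, hab, hJa1, hJb1⟩
  -- Step 2
  obtain ⟨m, hmM1, hma, hmb, hbE⟩ := nonlinear hN hL hbad1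
  set K : Set X := {y | J M1 m y} with hK
  have hmK : m ∈ K := J_refl' hmM1
  have haK : a ∉ K := fun hc => hma (hJa1 m (J.symmT hc))
  have hbK : b ∉ K := fun hc => hmb (hJb1 m (J.symmT hc))
  have hROK : RO M1 (M1 \ K) := RO_minus_closed (fun z hz hzK => J_closed hN hz hzK)
  set E : Set X := connectedComponentIn (M1 \ K) a with hE
  have hROE : RO M1 E := ro_comp hL hM1p hROK a
  have haE : a ∈ E := mem_connectedComponentIn ⟨haM1, haK⟩
  have hEp : IsPreconnected E := isPreconnected_connectedComponentIn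
  have hEsub : E ⊆ M1 \ K := connectedComponentIn_subset _ _
  -- Step 3
  obtain ⟨v', hv', hva', hvb'⟩ := bridge hL hEp (P := {a}) (Q := {b}) (by simpa using haE)
    (by simpa using hbE) (hsing E a) (hsing E b) hdab (singleton_nonempty a) (singleton_nonempty b)
  set G : Set X := connectedComponentIn (E \ ({a} ∪ {b})) v' with hG
  have haG : a ∈ closure G := by
    obtain ⟨w, hw1, hw2⟩ := hva'
    rw [mem_singleton_iff] at hw1; rwa [hw1] at hw2
  have hbG : b ∈ closure G := by
    obtain ⟨w, hw1, hw2⟩ := hvb'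
    rw [mem_singleton_iff] at hw1; rwa [hw1] at hw2
  have hGp : IsPreconnected G := isPreconnected_connectedComponentIn
  have hGE : G ⊆ E \ ({a} ∪ {b}) := connectedComponentIn_subset _ _
  have hROab : RO E (E \ ({a} ∪ {b})) := by
    apply RO_minus_closed
    intro z _ hz
    rwa [((isClosed_singleton (x := a)).union (isClosed_singleton (x := b))).closure_eq] at hz
  have hROEG : RO E G := ro_comp hL hEp hROab v'
  have hROG : RO M1 G := hROEG.trans' hROE
  have hGK : ∀ w ∈ G, w ∉ K := fun w hw => (hEsub (hGE hw).1).2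
  have hGE1 : G ⊆ E1 := by
    intro w hw
    have h1 := hGE hw
    rcases (hEsub h1.1).1 with h2 | h2 | h2
    · exact absurd (Or.inl h2) h1.2
    · exact absurd (Or.inr h2) h1.2
    · exact h2
  have hmE1 : m ∈ E1 := by
    rcases hmM1 with h2 | h2 | h2
    · exact absurd h2 hma
    · exact absurd h2 hmb
    · exact h2
  obtain ⟨z, hzE1, hzG, hzG'⟩ := RO_bdry hE1p hE1M1 hROG hGE1 ⟨v', mem_connectedComponentIn hv'⟩
    hmE1 (fun hc => hGK m hc hmK)
  have hzab : z ∉ ({a} ∪ {b} : Set X) := (hE1M hzE1).2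
  have hzK : z ∈ K := by
    by_contra hzK
    have hzE : z ∈ E := comp_closed_in' (closure_mono (fun w hw => (hGE hw).1) hzG)
      ⟨hE1M1 hzE1, hzK⟩
    exact hzG' (comp_closed_in' hzG ⟨hzE, hzab⟩)
  have hGM1 : G ⊆ M1 := hGE1.trans hE1M1
  refine ⟨G, z, hGM1.trans hM1M, hM1M (hE1M1 hzE1), hGp, ?_, ?_, hzG', hab, ?_, ?_, haG, hbG, hzG,
    ?_, ?_, ?_⟩
  · intro hc; exact (hGE hc).2 (Or.inl rfl)
  · intro hc; exact (hGE hc).2 (Or.inr rfl)
  · intro hc; exact hzab (Or.inl hc.symm)
  · intro hc; exact hzab (Or.inr hc.symm)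
  · intro y hy
    exact hJa1 y (hy.monoT (insert_subset haM1 hGM1))
  · intro y hy
    exact hJb1 y (hy.monoT (insert_subset hbM1 hGM1))
  · intro y hy
    have h1 : J M1 z y := hy.monoT (insert_subset (hE1M1 hzE1) hGM1)
    have h2 : y ∈ K := J.transT hzK h1
    obtain ⟨C, hC, -, -, -, hyC⟩ := hy
    rcases hC hyC with h3 | h3
    · exact h3
    · exact absurd h2 (hGK y h3)

end Pool.Agent.Helper451.Arcw
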